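import Mathlib
import Pool.Agent.W373.Unif.Statements

set_option autoImplicit false

/-!
# W373U-SPAN : the lower central series of the free Lie algebra is spanned by right normed words
-/

namespace Pool.Agent.W880.UF
open Pool.Agent.W373.Unif

section Span

variable (R : Type) [CommRing R]

/-- right normed words -/
noncomputable def rw' (i : X) (w : List X) : FreeLieAlgebra R X :=
  List.foldr (fun (k : X) (a : FreeLieAlgebra R X) => ⁅FreeLieAlgebra.of R k, a⁆)
    (FreeLieAlgebra.of R i) w

theorem rw'_cons (i a : X) (w : List X) :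
    rw' R i (a :: w) = ⁅FreeLieAlgebra.of R a, rw' R i w⁆ := rfl

theorem rw'_nil (i : X) : rw' R i [] = FreeLieAlgebra.of R i := rfl

/-- the span of the long words -/
noncomputable def Sp (j : ℕ) : Submodule R (FreeLieAlgebra R X) :=
  Submodule.span R {y | ∃ (i : X) (w : List X), j ≤ w.length ∧ y = rw' R i w}

theorem mem_Sp (j : ℕ) (i : X) (w : List X) (h : j ≤ w.length) : rw' R i w ∈ Sp R j :=
  Submodule.subset_span ⟨i, w, h, rfl⟩

theorem gen_Sp (a : X) (n : ℕ) (y : FreeLieAlgebra R X) (hy : y ∈ Sp R n) :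
    ⁅FreeLieAlgebra.of R a, y⁆ ∈ Sp R (n + 1) := by
  unfold Sp at hy
  induction hy using Submodule.span_induction with
  | mem y h =>
    obtain ⟨i, w, hw, rfl⟩ := h
    rw [← rw'_cons]
    exact mem_Sp R _ i (a :: w) (by simpa using hw)
  | zero => rw [lie_zero]; exact Submodule.zero_mem _
  | add y z _ _ h1 h2 => rw [lie_add]; exact Submodule.add_mem _ h1 h2
  | smul c y _ h1 => rw [lie_smul]; exact Submodule.smul_mem _ c h1

theorem word_Sp (i : X) (u : List X) : ∀ (n : ℕ) (y : FreeLieAlgebra R X), y ∈ Sp R n →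
    ⁅rw' R i u, y⁆ ∈ Sp R (n + u.length + 1) := by
  induction u with
  | nil =>
    intro n y hy
    rw [rw'_nil]
    simpa using gen_Sp R i n y hy
  | cons a u ih =>
    intro n y hy
    rw [rw'_cons, lie_lie]
    refine Submodule.sub_mem _ ?_ ?_
    · have h1 := gen_Sp R a _ _ (ih n y hy)
      simpa [add_assoc] using h1
    · have h1 := ih (n + 1) _ (gen_Sp R a n y hy)
      have h2 : n + 1 + u.length + 1 = n + (a :: u).length + 1 := by
        simp only [List.length_cons]
        omega
      rwa [h2] at h1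

theorem Sp_Sp (m n : ℕ) (x y : FreeLieAlgebra R X) (hx : x ∈ Sp R m) (hy : y ∈ Sp R n) :
    ⁅x, y⁆ ∈ Sp R (m + n + 1) := by
  unfold Sp at hx
  induction hx using Submodule.span_induction with
  | mem x h =>
    obtain ⟨i, w, hw, rfl⟩ := h
    have h1 := word_Sp R i w n y hy
    have h2 : Sp R (n + w.length + 1) ≤ Sp R (m + n + 1) := by
      refine Submodule.span_mono ?_
      rintro z ⟨i, v, hv, rfl⟩
      exact ⟨i, v, by omega, rfl⟩
    exact h2 h1
  | zero => rw [zero_lie]; exact Submodule.zero_mem _
  | add y z _ _ h1 h2 => rw [add_lie]; exact Submodule.add_mem _ h1 h2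
  | smul c y _ h1 => rw [smul_lie]; exact Submodule.smul_mem _ c h1

/-- the span of all words as a Lie subalgebra -/
noncomputable def S0 : LieSubalgebra R (FreeLieAlgebra R X) :=
  { Sp R 0 with
    lie_mem' := by
      intro x y hx hy
      have h1 := Sp_Sp R 0 0 x y hx hy
      have h2 : Sp R (0 + 0 + 1) ≤ Sp R 0 := by
        refine Submodule.span_mono ?_
        rintro z ⟨i, v, hv, rfl⟩
        exact ⟨i, v, by omega, rfl⟩
      exact h2 h1 }

theorem Sp_zero : Sp R 0 = ⊤ := by
  rw [eq_top_iff]
  intro y _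
  have hof : ∀ a : X, FreeLieAlgebra.of R a ∈ S0 R := fun a => mem_Sp R 0 a [] (by simp)
  let F : FreeLieAlgebra R X →ₗ⁅R⁆ S0 R :=
    FreeLieAlgebra.lift R fun a => ⟨FreeLieAlgebra.of R a, hof a⟩
  have h1 : (S0 R).incl.comp F = LieHom.id := by
    apply FreeLieAlgebra.hom_ext
    intro a
    change ((F (FreeLieAlgebra.of R a) : S0 R) : FreeLieAlgebra R X) = FreeLieAlgebra.of R a
    rw [FreeLieAlgebra.lift_of_apply]
  have h2 : (F y : FreeLieAlgebra R X) = y := by
    have := LieHom.congr_fun h1 y
    exact this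
  rw [← h2]
  exact (F y).2

theorem lcs_eq (j : ℕ) :
    (LieModule.lowerCentralSeries R (FreeLieAlgebra R X) (FreeLieAlgebra R X) j).toSubmodule =
      Sp R j := by
  induction j with
  | zero =>
    rw [LieModule.lowerCentralSeries_zero, Sp_zero]
    rfl
  | succ j ih =>
    rw [LieModule.lowerCentralSeries_succ, LieSubmodule.lieIdeal_oper_eq_linear_span']
    apply le_antisymm
    · rw [Submodule.span_le]
      rintro z ⟨x, _, y, hy, rfl⟩
      have hx : x ∈ Sp R 0 := by
        rw [Sp_zero]
        trivial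
      have hy' : y ∈ Sp R j := by
        rw [← ih]
        exact hy
      have h1 := Sp_Sp R 0 j x y hx hy'
      rwa [zero_add] at h1
    · refine Submodule.span_le.2 ?_
      rintro z ⟨i, w, hw, rfl⟩
      cases w with
      | nil => simp at hw
      | cons a w =>
        refine Submodule.subset_span ⟨FreeLieAlgebra.of R a, trivial, rw' R i w, ?_, rfl⟩
        have h1 : rw' R i w ∈ Sp R j := mem_Sp R j i w (by simpa using hw)
        rw [← ih] at h1
        exact h1

end Span

theorem span_main : S_Span := fun R _ j => lcs_eq R j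

end Pool.Agent.W880.UF
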