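import Mathlib
import Pool.Agent.W373.Unif.Statements
import Pool.Agent.W880.UF.Span

set_option autoImplicit false

/-!
# W373U-CF : coefficient functionals on the free Lie algebra
-/

namespace Pool.Agent.W880.UF
open Pool.Agent.W373.Unif

section Cf

attribute [local instance 100] LieRing.ofAssociativeRing

variable (R : Type) [CommRing R]

/-- left multiplication by a letter -/
noncomputable def TT (a : X) : Module.End R (List X →₀ R) :=
  Finsupp.lmapDomain R R (List.cons a)

theorem TT_single (a : X) (m : List X) (c : R) :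
    TT R a (Finsupp.single m c) = Finsupp.single (a :: m) c := by
  unfold TT
  rw [Finsupp.lmapDomain_apply, Finsupp.mapDomain_single]

/-- the representation -/
noncomputable def rho : FreeLieAlgebra R X →ₗ⁅R⁆ Module.End R (List X →₀ R) :=
  FreeLieAlgebra.lift R (TT R)

theorem rho_of (a : X) : rho R (FreeLieAlgebra.of R a) = TT R a :=
  FreeLieAlgebra.lift_of_apply (R := R) (TT R) a

theorem rho_lie (a : X) (y : FreeLieAlgebra R X) (v : List X →₀ R) :
    rho R ⁅FreeLieAlgebra.of R a, y⁆ v = TT R a (rho R y v) - rho R y (TT R a v) := by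
  rw [LieHom.map_lie, rho_of]
  rfl

/-- words of given length -/
noncomputable def Dg (n : ℕ) : Submodule R (List X →₀ R) :=
  Finsupp.supported R R {m : List X | m.length = n}

theorem TT_Dg (a : X) (n : ℕ) (v : List X →₀ R) (hv : v ∈ Dg R n) : TT R a v ∈ Dg R (n + 1) := by
  unfold Dg at hv ⊢
  rw [Finsupp.supported_eq_span_single] at hv
  induction hv using Submodule.span_induction with
  | mem v h =>
    obtain ⟨m, hm, rfl⟩ := h
    simp only [TT_single]
    apply Finsupp.single_mem_supported
    have hm' : m.length = n := hm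
    change (a :: m).length = n + 1
    rw [List.length_cons, hm']
  | zero => rw [map_zero]; exact Submodule.zero_mem _
  | add v w _ _ h1 h2 => rw [map_add]; exact Submodule.add_mem _ h1 h2
  | smul c v _ h1 => rw [map_smul]; exact Submodule.smul_mem _ c h1

theorem rho_Dg (i : X) (w : List X) : ∀ (n : ℕ) (v : List X →₀ R), v ∈ Dg R n →
    rho R (rw' R i w) v ∈ Dg R (n + w.length + 1) := by
  induction w with
  | nil =>
    intro n v hv
    rw [rw'_nil, rho_of]
    simpa using TT_Dg R i n v hv
  | cons a w ih =>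
    intro n v hv
    rw [rw'_cons, rho_lie]
    refine Submodule.sub_mem _ ?_ ?_
    · have h1 := TT_Dg R a _ _ (ih n v hv)
      simpa [add_assoc] using h1
    · have h1 := ih (n + 1) _ (TT_Dg R a n v hv)
      have h2 : n + 1 + w.length + 1 = n + (a :: w).length + 1 := by
        simp only [List.length_cons]
        omega
      rwa [h2] at h1

/-- coefficient functional -/
noncomputable def cf (W : Type) (t : W → List X) : FreeLieAlgebra R X →ₗ[R] (W → R) where
  toFun y w := rho R y (Finsupp.single [] 1) (t w)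
  map_add' y z := by
    funext w
    rw [map_add]
    rfl
  map_smul' c y := by
    funext w
    rw [map_smul]
    rfl

theorem cf_apply (W : Type) (t : W → List X) (y : FreeLieAlgebra R X) (w : W) :
    cf R W t y w = rho R y (Finsupp.single [] 1) (t w) := rfl

theorem cf_lcs (W : Type) (t : W → List X) (n : ℕ) (ht : ∀ w, (t w).length ≤ n)
    (y : FreeLieAlgebra R X)
    (hy : y ∈ LieModule.lowerCentralSeries R (FreeLieAlgebra R X) (FreeLieAlgebra R X) n) :
    cf R W t y = 0 := by
  have hy' : y ∈ Sp R n := by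
    rw [← lcs_eq]
    exact hy
  unfold Sp at hy'
  induction hy' using Submodule.span_induction with
  | mem y h =>
    obtain ⟨i, w, hw, rfl⟩ := h
    funext u
    rw [cf_apply]
    have h1 : Finsupp.single ([] : List X) (1 : R) ∈ Dg R 0 :=
      Finsupp.single_mem_supported R 1 rfl
    have h2 := rho_Dg R i w 0 _ h1
    unfold Dg at h2
    rw [Finsupp.mem_supported'] at h2
    apply h2
    intro h3
    have h4 : (t u).length = 0 + w.length + 1 := h3
    have h5 := ht u
    omega
  | zero => rw [map_zero]
  | add v w hv hw h1 h2 =>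
    rw [map_add, h1, h2, add_zero]
    · have : w ∈ Sp R n := hw
      rw [← lcs_eq] at this
      exact this
    · have : v ∈ Sp R n := hv
      rw [← lcs_eq] at this
      exact this
  | smul c v hv h1 =>
    rw [map_smul, h1, smul_zero]
    have : v ∈ Sp R n := hv
    rw [← lcs_eq] at this
    exact this

/-- words as lists -/
def l1 (a : X) : List X := [a]
/-- words as lists -/
def l2 (w : W2) : List X := [w.1, w.2]
/-- words as lists -/
def l3 (w : W3) : List X := [w.1, w.2.1, w.2.2]
/-- words as lists -/
def l4 (w : W4) : List X := [w.1, w.2.1, w.2.2.1, w.2.2.2]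

theorem rho1 (a : X) (m : List X) : rho R (FreeLieAlgebra.of R a) (Finsupp.single m 1) =
    Finsupp.single (a :: m) 1 := by
  rw [rho_of, TT_single]

theorem rho2 (a b : X) (m : List X) :
    rho R (b2 (FreeLieAlgebra.of R) (a, b)) (Finsupp.single m 1) =
    Finsupp.single (a :: b :: m) 1 - Finsupp.single (b :: a :: m) 1 := by
  unfold b2
  rw [rho_lie, rho1, TT_single, TT_single, rho1]

theorem rho3 (a b c : X) (m : List X) :
    rho R (b3 (FreeLieAlgebra.of R) (a, b, c)) (Finsupp.single m 1) =
    Finsupp.single (a :: b :: c :: m) 1 - Finsupp.single (a :: c :: b :: m) 1 -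
    Finsupp.single (b :: c :: a :: m) 1 + Finsupp.single (c :: b :: a :: m) 1 := by
  unfold b3
  rw [rho_lie, rho2, TT_single, rho2, map_sub, TT_single, TT_single]
  abel

theorem rho4 (a b c d : X) (m : List X) :
    rho R (b4 (FreeLieAlgebra.of R) (a, b, c, d)) (Finsupp.single m 1) =
    Finsupp.single (a :: b :: c :: d :: m) 1 - Finsupp.single (a :: b :: d :: c :: m) 1
    - Finsupp.single (a :: c :: d :: b :: m) 1 + Finsupp.single (a :: d :: c :: b :: m) 1
    - Finsupp.single (b :: c :: d :: a :: m) 1 + Finsupp.single (b :: d :: c :: a :: m) 1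
    + Finsupp.single (c :: d :: b :: a :: m) 1 - Finsupp.single (d :: c :: b :: a :: m) 1 := by
  unfold b4
  rw [rho_lie, rho3, TT_single, rho3, map_add, map_sub, map_sub, TT_single, TT_single, TT_single,
    TT_single]
  abel

theorem l1_s (a b : X) : (Finsupp.single [a] (1 : R)) (l1 b) = (Pi.single a 1 : X → R) b := by
  unfold l1
  rw [Finsupp.single_apply, Pi.single_apply]
  simp [eq_comm]

theorem l2_s (a b : X) (w : W2) :
    (Finsupp.single [a, b] (1 : R)) (l2 w) = (Pi.single (a, b) 1 : W2 → R) w := by
  unfold l2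
  rw [Finsupp.single_apply, Pi.single_apply]
  simp [Prod.ext_iff, eq_comm]

theorem l3_s (a b c : X) (w : W3) :
    (Finsupp.single [a, b, c] (1 : R)) (l3 w) = (Pi.single (a, b, c) 1 : W3 → R) w := by
  unfold l3
  rw [Finsupp.single_apply, Pi.single_apply]
  simp [Prod.ext_iff, eq_comm]

theorem l4_s (a b c d : X) (w : W4) :
    (Finsupp.single [a, b, c, d] (1 : R)) (l4 w) = (Pi.single (a, b, c, d) 1 : W4 → R) w := by
  unfold l4
  rw [Finsupp.single_apply, Pi.single_apply]
  simp [Prod.ext_iff, eq_comm]

end Cf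

theorem cf_main : S_Cf := by
  intro R _
  refine ⟨cf R X l1, cf R W2 l2, cf R W3 l3, cf R W4 l4, ?_, ?_, ?_, ?_, ?_, ?_, ?_, ?_, ?_, ?_,
    ?_, ?_, ?_, ?_, ?_, ?_, ?_⟩
  · intro y hy
    exact ⟨cf_lcs R X l1 4 (fun w => by simp [l1]) y hy,
      cf_lcs R W2 l2 4 (fun w => by simp [l2]) y hy,
      cf_lcs R W3 l3 4 (fun w => by simp [l3]) y hy,
      cf_lcs R W4 l4 4 (fun w => by simp [l4]) y hy⟩
  · intro a
    funext b
    rw [cf_apply, rho1, l1_s]
  · rintro ⟨a, b⟩
    funext w
    rw [cf_apply, rho2]
    simp [l1]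
  · rintro ⟨a, b, c⟩
    funext w
    rw [cf_apply, rho3]
    simp [l1]
  · rintro ⟨a, b, c, d⟩
    funext w
    rw [cf_apply, rho4]
    simp [l1]
  · intro a
    funext w
    rw [cf_apply, rho1]
    simp [l2]
  · intro a b
    funext w
    rw [cf_apply, rho2]
    simp only [Finsupp.sub_apply, l2_s, Pi.sub_apply]
  · rintro ⟨a, b, c⟩
    funext w
    rw [cf_apply, rho3]
    simp [l2]
  · rintro ⟨a, b, c, d⟩
    funext w
    rw [cf_apply, rho4]
    simp [l2]
  · intro a
    funext w
    rw [cf_apply, rho1]
    simp [l3]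
  · rintro ⟨a, b⟩
    funext w
    rw [cf_apply, rho2]
    simp [l3]
  · intro a b c
    funext w
    rw [cf_apply, rho3]
    simp only [Finsupp.sub_apply, Finsupp.add_apply, l3_s, Pi.sub_apply, Pi.add_apply]
  · rintro ⟨a, b, c, d⟩
    funext w
    rw [cf_apply, rho4]
    simp [l3]
  · intro a
    funext w
    rw [cf_apply, rho1]
    simp [l4]
  · rintro ⟨a, b⟩
    funext w
    rw [cf_apply, rho2]
    simp [l4]
  · rintro ⟨a, b, c⟩
    funext w
    rw [cf_apply, rho3]
    simp [l4]
  · intro a b c d
    funext w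
    rw [cf_apply, rho4]
    simp only [Finsupp.sub_apply, Finsupp.add_apply, l4_s, Pi.sub_apply, Pi.add_apply]

end Pool.Agent.W880.UF
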