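import Mathlib
import Pool.Agent.W373.Unif.Statements
import Pool.Agent.W880.UF.Span

set_option autoImplicit false

/-!
# W373U-MODEL : every free nilpotent Lie algebra of class four on six generators carries a `Model`
-/

namespace Pool.Agent.W880.UF
open Pool.Agent.W373.Unif

/-- descending linear maps -/
theorem desc_lin {R A B C : Type} [CommRing R] [AddCommGroup A] [Module R A] [AddCommGroup B]
    [Module R B] [AddCommGroup C] [Module R C] (π : A →ₗ[R] B) (hπ : Function.Surjective π)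
    (f : A →ₗ[R] C) (h : ∀ a, π a = 0 → f a = 0) : ∃ g : B →ₗ[R] C, ∀ a, g (π a) = f a := by
  have h' : π.ker ≤ f.ker := fun a ha => h a ha
  refine ⟨(π.ker.liftQ f h').comp (π.quotKerEquivOfSurjective hπ).symm.toLinearMap, fun a => ?_⟩
  have h1 : (π.quotKerEquivOfSurjective hπ).symm (π a) = Submodule.Quotient.mk a := by
    rw [LinearEquiv.symm_apply_eq]
    rfl
  change π.ker.liftQ f h' ((π.quotKerEquivOfSurjective hπ).symm (π a)) = f a
  rw [h1]
  rfl

section Model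

variable {R L : Type} [CommRing R] [LieRing L] [LieAlgebra R L]
  (π : FreeLieAlgebra R X →ₗ⁅R⁆ L)

theorem pi_b2 (w : W2) :
    b2 (fun a => π (FreeLieAlgebra.of R a)) w = π (b2 (FreeLieAlgebra.of R) w) := by
  unfold b2
  rw [LieHom.map_lie]

theorem pi_b3 (w : W3) :
    b3 (fun a => π (FreeLieAlgebra.of R a)) w = π (b3 (FreeLieAlgebra.of R) w) := by
  unfold b3
  rw [pi_b2, LieHom.map_lie]

theorem pi_b4 (w : W4) :
    b4 (fun a => π (FreeLieAlgebra.of R a)) w = π (b4 (FreeLieAlgebra.of R) w) := by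
  unfold b4
  rw [pi_b3, LieHom.map_lie]

theorem b4_rw (w : W4) :
    b4 (FreeLieAlgebra.of R) w = rw' R w.2.2.2 [w.1, w.2.1, w.2.2.1] := rfl

theorem b3_rw (w : W3) : b3 (FreeLieAlgebra.of R) w = rw' R w.2.2 [w.1, w.2.1] := rfl

theorem b2_rw (w : W2) : b2 (FreeLieAlgebra.of R) w = rw' R w.2 [w.1] := rfl

theorem pi_Sp_zero (hk : π.ker =
    LieModule.lowerCentralSeries R (FreeLieAlgebra R X) (FreeLieAlgebra R X) 4)
    (y : FreeLieAlgebra R X) (hy : y ∈ Sp R 4) : π y = 0 := by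
  rw [← LieHom.mem_ker, hk]
  rw [← lcs_eq] at hy
  exact hy

theorem pi_word (hk : π.ker =
    LieModule.lowerCentralSeries R (FreeLieAlgebra R X) (FreeLieAlgebra R X) 4)
    (i : X) (w : List X) (n : ℕ) (hn : n ≤ w.length) :
    π (rw' R i w) ∈ Submodule.span R
      ((if n = 0 then Set.range (fun a => π (FreeLieAlgebra.of R a)) else ∅) ∪
      (if n ≤ 1 then Set.range (b2 (fun a => π (FreeLieAlgebra.of R a))) else ∅) ∪
      (if n ≤ 2 then Set.range (b3 (fun a => π (FreeLieAlgebra.of R a))) else ∅) ∪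
      Set.range (b4 (fun a => π (FreeLieAlgebra.of R a)))) := by
  match w, hn with
  | [], hn =>
    have h0 : n = 0 := by simpa using hn
    subst h0
    apply Submodule.subset_span
    simp only [if_true]
    exact Or.inl (Or.inl (Or.inl ⟨i, rfl⟩))
  | [a], hn =>
    have h0 : n ≤ 1 := by simpa using hn
    apply Submodule.subset_span
    rw [if_pos h0]
    exact Or.inl (Or.inl (Or.inr ⟨(a, i), pi_b2 π (a, i)⟩))
  | [a, b], hn =>
    have h0 : n ≤ 2 := by simpa using hn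
    apply Submodule.subset_span
    rw [if_pos h0]
    exact Or.inl (Or.inr ⟨(a, b, i), pi_b3 π (a, b, i)⟩)
  | [a, b, c], _ =>
    apply Submodule.subset_span
    exact Or.inr ⟨(a, b, c, i), pi_b4 π (a, b, c, i)⟩
  | (a :: b :: c :: d :: w), _ =>
    rw [pi_Sp_zero π hk _ (mem_Sp R 4 i _ (by simp))]
    exact Submodule.zero_mem _

theorem pi_Sp (hk : π.ker =
    LieModule.lowerCentralSeries R (FreeLieAlgebra R X) (FreeLieAlgebra R X) 4)
    (n : ℕ) (y : FreeLieAlgebra R X) (hy : y ∈ Sp R n) :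
    π y ∈ Submodule.span R
      ((if n = 0 then Set.range (fun a => π (FreeLieAlgebra.of R a)) else ∅) ∪
      (if n ≤ 1 then Set.range (b2 (fun a => π (FreeLieAlgebra.of R a))) else ∅) ∪
      (if n ≤ 2 then Set.range (b3 (fun a => π (FreeLieAlgebra.of R a))) else ∅) ∪
      Set.range (b4 (fun a => π (FreeLieAlgebra.of R a)))) := by
  unfold Sp at hy
  induction hy using Submodule.span_induction with
  | mem y h =>
    obtain ⟨i, w, hw, rfl⟩ := h
    exact pi_word π hk i w n hw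
  | zero => rw [map_zero]; exact Submodule.zero_mem _
  | add v w _ _ h1 h2 => rw [map_add]; exact Submodule.add_mem _ h1 h2
  | smul c v _ h1 => rw [map_smul]; exact Submodule.smul_mem _ c h1

theorem lcs_map (hπ : Function.Surjective π) (k : ℕ) (y : L) :
    y ∈ LieModule.lowerCentralSeries R L L k ↔ ∃ z ∈ Sp R k, π z = y := by
  rw [← LieIdeal.lowerCentralSeries_map_eq k hπ]
  constructor
  · intro hy
    obtain ⟨z, hz⟩ := LieIdeal.mem_map_of_surjective hπ hy
    refine ⟨z.1, ?_, hz⟩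
    rw [← lcs_eq]
    exact z.2
  · rintro ⟨z, hz, rfl⟩
    rw [← lcs_eq] at hz
    exact LieIdeal.mem_map hz

theorem lift_exists (hπ : Function.Surjective π) (hk : π.ker =
    LieModule.lowerCentralSeries R (FreeLieAlgebra R X) (FreeLieAlgebra R X) 4) (f : X → L) :
    ∃ g : L →ₗ⁅R⁆ L, ∀ a, g (π (FreeLieAlgebra.of R a)) = f a := by
  obtain ⟨φ, hφ⟩ : ∃ φ : FreeLieAlgebra R X →ₗ⁅R⁆ L, ∀ a, φ (FreeLieAlgebra.of R a) = f a :=
    ⟨FreeLieAlgebra.lift R f, fun a => FreeLieAlgebra.lift_of_apply (R := R) f a⟩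
  have h0 : ∀ y ∈ LieModule.lowerCentralSeries R L L 4, y = 0 := by
    intro y hy
    obtain ⟨z, hz, rfl⟩ := (lcs_map π hπ 4 y).1 hy
    exact pi_Sp_zero π hk z hz
  have h1 : ∀ z, π z = 0 → φ z = 0 := by
    intro z hz
    rw [← LieHom.mem_ker, hk] at hz
    exact h0 _ (LieIdeal.map_lowerCentralSeries_le 4 (LieIdeal.mem_map hz))
  obtain ⟨g, hg⟩ := desc_lin (π : FreeLieAlgebra R X →ₗ[R] L) hπ
    (φ : FreeLieAlgebra R X →ₗ[R] L) h1
  have hg' : ∀ z, g (π z) = φ z := hg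
  refine ⟨{ g with
    map_lie' := ?_ }, fun a => ?_⟩
  · intro x y
    obtain ⟨u, rfl⟩ := hπ x
    obtain ⟨v, rfl⟩ := hπ y
    change g ⁅π u, π v⁆ = ⁅g (π u), g (π v)⁆
    rw [← LieHom.map_lie, hg', hg', hg', LieHom.map_lie]
  · change g (π (FreeLieAlgebra.of R a)) = f a
    rw [hg', hφ]

end Model

theorem model_main : S_Span → S_Cf → S_Model := by
  intro _ hcf R L _ _ _ π hπ hk
  obtain ⟨cf1, cf2, cf3, cf4, h0, e11, e12, e13, e14, e21, e22, e23, e24, e31, e32, e33, e34,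
    e41, e42, e43, e44⟩ := hcf R
  have hker : ∀ z, π z = 0 → cf1 z = 0 ∧ cf2 z = 0 ∧ cf3 z = 0 ∧ cf4 z = 0 := by
    intro z hz
    rw [← LieHom.mem_ker, hk] at hz
    exact h0 z hz
  obtain ⟨g1, hg1⟩ := desc_lin (π : FreeLieAlgebra R X →ₗ[R] L) hπ cf1 fun z hz => (hker z hz).1
  obtain ⟨g2, hg2⟩ := desc_lin (π : FreeLieAlgebra R X →ₗ[R] L) hπ cf2 fun z hz =>
    (hker z hz).2.1
  obtain ⟨g3, hg3⟩ := desc_lin (π : FreeLieAlgebra R X →ₗ[R] L) hπ cf3 fun z hz =>
    (hker z hz).2.2.1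
  obtain ⟨g4, hg4⟩ := desc_lin (π : FreeLieAlgebra R X →ₗ[R] L) hπ cf4 fun z hz =>
    (hker z hz).2.2.2
  have k1 : ∀ z, g1 (π z) = cf1 z := hg1
  have k2 : ∀ z, g2 (π z) = cf2 z := hg2
  have k3 : ∀ z, g3 (π z) = cf3 z := hg3
  have k4 : ∀ z, g4 (π z) = cf4 z := hg4
  have hlift := lift_exists π hπ hk
  choose lf hlf using hlift
  exact ⟨{
    cf1 := g1
    cf2 := g2
    cf3 := g3
    cf4 := g4
    cf1_x := fun a => by rw [k1, e11]
    cf1_b2 := fun w => by rw [pi_b2, k1, e12]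
    cf1_b3 := fun w => by rw [pi_b3, k1, e13]
    cf1_b4 := fun w => by rw [pi_b4, k1, e14]
    cf2_x := fun a => by rw [k2, e21]
    cf2_b2 := fun a b => by rw [pi_b2, k2, e22]
    cf2_b3 := fun w => by rw [pi_b3, k2, e23]
    cf2_b4 := fun w => by rw [pi_b4, k2, e24]
    cf3_x := fun a => by rw [k3, e31]
    cf3_b2 := fun w => by rw [pi_b2, k3, e32]
    cf3_b3 := fun a b c => by rw [pi_b3, k3, e33]
    cf3_b4 := fun w => by rw [pi_b4, k3, e34]
    cf4_x := fun a => by rw [k4, e41]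
    cf4_b2 := fun w => by rw [pi_b2, k4, e42]
    cf4_b3 := fun w => by rw [pi_b3, k4, e43]
    cf4_b4 := fun a b c d => by rw [pi_b4, k4, e44]
    span := by
      intro y
      obtain ⟨z, rfl⟩ := hπ y
      have hz : z ∈ Sp R 0 := by
        rw [Sp_zero]
        trivial
      have h1 := pi_Sp π hk 0 z hz
      simpa using h1
    nil := by
      intro a w
      rw [pi_b4, ← LieHom.map_lie]
      exact pi_Sp_zero π hk _ (mem_Sp R 4 w.2.2.2 [a, w.1, w.2.1, w.2.2.1] (by simp))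
    lcs3 := by
      apply le_antisymm
      · intro y hy
        obtain ⟨z, hz, rfl⟩ := (lcs_map π hπ 3 y).1 hy
        have h1 := pi_Sp π hk 3 z hz
        simpa using h1
      · refine Submodule.span_le.2 ?_
        rintro _ ⟨w, rfl⟩
        refine (lcs_map π hπ 3 _).2 ⟨b4 (FreeLieAlgebra.of R) w, ?_, (pi_b4 π w).symm⟩
        rw [b4_rw]
        exact mem_Sp R 3 _ _ (by simp)
    lift := lf
    lift_x := hlf }⟩

end Pool.Agent.W880.UF
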