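import Mathlib
import Pool.Agent.W373.Unif.Statements
import Pool.Agent.W880.UF.Model

set_option autoImplicit false

/-!
# W373U-L3 : the class three quotient
-/

namespace Pool.Agent.W880.UF
open Pool.Agent.W373.Unif

section L3

variable {R L : Type} [CommRing R] [LieRing L] [LieAlgebra R L]

/-- the quotient map as a Lie homomorphism -/
def qq (K : LieIdeal R L) : L →ₗ⁅R⁆ L ⧸ K :=
  { K.toSubmodule.mkQ with
    map_lie' := fun {_ _} => rfl }

theorem qq_surj (K : LieIdeal R L) : Function.Surjective (qq K) :=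
  Submodule.mkQ_surjective K.toSubmodule

theorem qq_zero (K : LieIdeal R L) (y : L) : qq K y = 0 ↔ y ∈ K :=
  Submodule.Quotient.mk_eq_zero K.toSubmodule

theorem gr_map {L' : Type} [LieRing L'] [LieAlgebra R L'] (q : L →ₗ⁅R⁆ L') (x : X → L) (i : ℕ) :
    gr R (fun a => q (x a)) i = (gr R x i).map (q : L →ₗ[R] L') := by
  unfold gr
  rw [Submodule.map_span]
  congr 1
  have h1 : ∀ (j : X) (w : List X),
      List.foldr (fun (k : X) (a : L') => ⁅q (x k), a⁆) (q (x j)) w =
      q (List.foldr (fun (k : X) (a : L) => ⁅x k, a⁆) (x j) w) := by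
    intro j w
    induction w with
    | nil => rfl
    | cons a w ih =>
      rw [List.foldr_cons, List.foldr_cons, ih, LieHom.map_lie]
  ext y
  constructor
  · rintro ⟨j, w, hw, rfl⟩
    exact ⟨_, ⟨j, w, hw, rfl⟩, (h1 j w).symm⟩
  · rintro ⟨_, ⟨j, w, hw, rfl⟩, rfl⟩
    exact ⟨j, w, hw, (h1 j w).symm⟩

theorem card_comap {L' : Type} [LieRing L'] [LieAlgebra R L'] (q : L →ₗ⁅R⁆ L')
    (hq : Function.Surjective q) (I' : LieIdeal R L') :
    Nat.card (L ⧸ (LieIdeal.comap q I').toSubmodule) = Nat.card (L' ⧸ I'.toSubmodule) := by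
  let f : L →ₗ[R] (L' ⧸ I'.toSubmodule) := I'.toSubmodule.mkQ.comp (q : L →ₗ[R] L')
  have hf : Function.Surjective f := (Submodule.mkQ_surjective _).comp hq
  have h1 : (LieIdeal.comap q I').toSubmodule = f.ker := by
    ext y
    change q y ∈ I' ↔ Submodule.Quotient.mk (q y) = (0 : L' ⧸ I'.toSubmodule)
    rw [Submodule.Quotient.mk_eq_zero]
    rfl
  rw [h1]
  exact Nat.card_congr (f.quotKerEquivOfSurjective hf).toEquiv

theorem graded_iff {L' : Type} [LieRing L'] [LieAlgebra R L'] (q : L →ₗ⁅R⁆ L')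
    (hq : Function.Surjective q) (x : X → L) (K : LieIdeal R L) (hK : ∀ y, q y = 0 ↔ y ∈ K)
    (hK3 : K.toSubmodule ≤ gr R x 3) (I' : LieIdeal R L') :
    (LieIdeal.comap q I').toSubmodule =
        (⨆ i : ℕ, ((LieIdeal.comap q I').toSubmodule ⊓ gr R x i)) ↔
      I'.toSubmodule = (⨆ i : ℕ, (I'.toSubmodule ⊓ gr R (fun a => q (x a)) i)) := by
  constructor
  · intro h
    apply le_antisymm
    · intro z hz
      obtain ⟨y, rfl⟩ := hq z
      have hy : y ∈ (LieIdeal.comap q I').toSubmodule := hz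
      rw [h] at hy
      have h1 : (⨆ i : ℕ, ((LieIdeal.comap q I').toSubmodule ⊓ gr R x i)).map
          (q : L →ₗ[R] L') ≤ ⨆ i : ℕ, (I'.toSubmodule ⊓ gr R (fun a => q (x a)) i) := by
        rw [Submodule.map_iSup]
        refine iSup_mono fun i => ?_
        rintro _ ⟨u, ⟨hu1, hu2⟩, rfl⟩
        refine ⟨hu1, ?_⟩
        rw [gr_map]
        exact ⟨u, hu2, rfl⟩
      exact h1 ⟨y, hy, rfl⟩
    · exact iSup_le fun i => inf_le_left
  · intro h
    apply le_antisymm
    · intro y hy
      have hy' : q y ∈ I'.toSubmodule := hy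
      rw [h] at hy'
      have h1 : (⨆ i : ℕ, (I'.toSubmodule ⊓ gr R (fun a => q (x a)) i)) ≤
          (⨆ i : ℕ, ((LieIdeal.comap q I').toSubmodule ⊓ gr R x i)).map (q : L →ₗ[R] L') := by
        rw [Submodule.map_iSup]
        refine iSup_mono fun i => ?_
        rintro z ⟨hz1, hz2⟩
        rw [gr_map] at hz2
        obtain ⟨u, hu, rfl⟩ := hz2
        exact ⟨u, ⟨hz1, hu⟩, rfl⟩
      obtain ⟨s, hs, hsy⟩ := h1 hy'
      have h2 : y - s ∈ K := by
        rw [← hK, map_sub]
        have h3 : q s = q y := hsy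
        rw [h3, sub_self]
      have h3 : K.toSubmodule ≤ (LieIdeal.comap q I').toSubmodule ⊓ gr R x 3 := by
        refine le_inf ?_ hK3
        intro u hu
        change q u ∈ I'
        rw [(hK u).2 hu]
        exact I'.zero_mem
      have h4 : y - s ∈ ⨆ i : ℕ, ((LieIdeal.comap q I').toSubmodule ⊓ gr R x i) :=
        (le_iSup (fun i : ℕ => (LieIdeal.comap q I').toSubmodule ⊓ gr R x i) 3) (h3 h2)
      have h5 := Submodule.add_mem _ h4 hs
      rwa [sub_add_cancel] at h5
    · exact iSup_le fun i => inf_le_left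

end L3

theorem l3_main : S_Span → S_L3 := by
  intro _ R L _ _ _ π hπ hk hM
  obtain ⟨M⟩ := hM
  obtain ⟨K, hKd⟩ : ∃ K : LieIdeal R L, K = LieModule.lowerCentralSeries R L L 3 := ⟨_, rfl⟩
  refine ⟨L ⧸ K, inferInstance, inferInstance, (qq K).comp π, ?_, ?_, ?_⟩
  · exact (qq_surj K).comp hπ
  · ext z
    rw [LieHom.mem_ker]
    change qq K (π z) = 0 ↔ _
    rw [qq_zero, hKd, lcs_map π hπ]
    constructor
    · rintro ⟨z', hz', h⟩
      have h1 : π (z - z') = 0 := by rw [map_sub, h, sub_self]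
      rw [← LieHom.mem_ker, hk] at h1
      have h2 : z - z' ∈ LieModule.lowerCentralSeries R (FreeLieAlgebra R X)
          (FreeLieAlgebra R X) 3 :=
        LieModule.antitone_lowerCentralSeries R _ _ (by norm_num : 3 ≤ 4) h1
      rw [← lcs_eq] at hz'
      have h3 := add_mem h2 hz'
      rwa [sub_add_cancel] at h3
    · intro h
      refine ⟨z, ?_, rfl⟩
      rw [← lcs_eq]
      exact h
  · intro n
    have hK : ∀ y, qq K y = 0 ↔ y ∈ K := qq_zero K
    have hK3 : K.toSubmodule ≤ gr R (fun a => π (FreeLieAlgebra.of R a)) 3 := by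
      have h1 : K.toSubmodule = Submodule.span R
          (Set.range (b4 fun a => π (FreeLieAlgebra.of R a))) := by
        rw [hKd]
        exact M.lcs3
      rw [h1, Submodule.span_le]
      rintro _ ⟨w, rfl⟩
      exact Submodule.subset_span ⟨w.2.2.2, [w.1, w.2.1, w.2.2.1], rfl, rfl⟩
    have hinj : Function.Injective (LieIdeal.comap (qq K) : LieIdeal R (L ⧸ K) → LieIdeal R L) := by
      intro I J hIJ
      ext z
      obtain ⟨y, rfl⟩ := qq_surj K z
      have h1 : y ∈ LieIdeal.comap (qq K) I ↔ y ∈ LieIdeal.comap (qq K) J := by rw [hIJ]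
      exact h1
    rw [← Set.ncard_image_of_injective _ hinj]
    congr 1
    ext I
    constructor
    · rintro ⟨I', ⟨h1, h2⟩, rfl⟩
      refine ⟨⟨?_, ?_⟩, ?_⟩
      · exact (graded_iff (qq K) (qq_surj K) _ K hK hK3 I').2 h1
      · have h3 := card_comap (qq K) (qq_surj K) I'
        exact h3.trans h2
      · rw [← hKd]
        intro y hy
        change qq K y ∈ I'
        rw [(hK y).2 hy]
        exact I'.zero_mem
    · rintro ⟨⟨h1, h2⟩, h3⟩
      rw [← hKd] at h3
      have h4 : LieIdeal.comap (qq K) (LieIdeal.map (qq K) I) = I := by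
        ext y
        constructor
        · intro hy
          obtain ⟨u, hu⟩ := LieIdeal.mem_map_of_surjective (qq_surj K) hy
          have h5 : y - u.1 ∈ K := by
            rw [← hK, map_sub, hu]
            exact sub_self _
          have h6 := add_mem (h3 h5) u.2
          rwa [sub_add_cancel] at h6
        · intro hy
          exact LieIdeal.mem_map hy
      refine ⟨LieIdeal.map (qq K) I, ⟨?_, ?_⟩, h4⟩
      · apply (graded_iff (qq K) (qq_surj K) _ K hK hK3 _).1
        rw [h4]
        exact h1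
      · have h5 := card_comap (qq K) (qq_surj K) (LieIdeal.map (qq K) I)
        rw [h4] at h5
        exact h5.symm.trans h2

end Pool.Agent.W880.UF
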