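import Mathlib
import Pool.Agent.W373.Unif.Statements
import Pool.Agent.W880.UF.L3

set_option autoImplicit false

/-!
# Counting ideals modulo 5 by fixed points, and W373U-FIXR
-/

namespace Pool.Agent.W880.UF
open Pool.Agent.W373.Unif

section GF

variable {R L : Type} [CommRing R] [LieRing L] [LieAlgebra R L]

theorem comap_iterI (t : L →ₗ⁅R⁆ L) (m : ℕ) (V : LieIdeal R L) (x : L) :
    x ∈ ((fun W : LieIdeal R L => LieIdeal.comap t W)^[m] V) ↔ t^[m] x ∈ V := by
  induction m generalizing x with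
  | zero => rfl
  | succ m ih =>
    rw [Function.iterate_succ_apply', LieIdeal.mem_comap, ih, Function.iterate_succ_apply]

theorem ideal_fix_count (t : L →ₗ⁅R⁆ L) (n : ℕ) (ht : ∀ x, t^[5 ^ n] x = x)
    (P : LieIdeal R L → Prop) (hfin : {I | P I}.Finite)
    (hP : ∀ I, P I → P (LieIdeal.comap t I)) :
    {I | P I}.ncard ≡ {I | P I ∧ ∀ y ∈ I, t y ∈ I}.ncard [MOD 5] := by
  classical
  have hf0 : Finite {I // P I} := hfin.to_subtype
  have h5 : Fact (Nat.Prime 5) := ⟨by norm_num⟩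
  let f : Function.End {I // P I} := fun V => ⟨LieIdeal.comap t V.1, hP _ V.2⟩
  have hval : ∀ (m : ℕ) (V : {I // P I}),
      ((f ^ m) V).1 = ((fun W : LieIdeal R L => LieIdeal.comap t W)^[m] V.1) := by
    intro m V
    induction m with
    | zero => rfl
    | succ m ih =>
      rw [Function.iterate_succ_apply', ← ih, pow_succ']
      rfl
  have hf : f ^ 5 ^ n = 1 := by
    funext V
    apply Subtype.ext
    rw [hval]
    ext x
    rw [comap_iterI, ht]
    rfl
  have hft : Fintype {I // P I} := Fintype.ofFinite _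
  have h1 := Equiv.Perm.card_fixedPoints_modEq (α := {I // P I}) hf
  simp only [← Nat.card_eq_fintype_card] at h1
  have h2 : Nat.card f.fixedPoints = Nat.card {I // P I ∧ ∀ y ∈ I, t y ∈ I} := by
    refine Nat.card_congr ⟨fun V => ⟨V.1.1, V.1.2, ?_⟩, fun V => ⟨⟨V.1, V.2.1⟩, ?_⟩, ?_, ?_⟩
    · intro F hF
      have h3 : f V.1 = V.1 := V.2
      have h4 : LieIdeal.comap t V.1.1 = V.1.1 := congrArg Subtype.val h3
      rw [← h4] at hF
      exact hF
    · apply Subtype.ext
      change LieIdeal.comap t V.1 = V.1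
      have hstep : ∀ (m : ℕ) (y : L), y ∈ V.1 → t^[m] y ∈ V.1 := by
        intro m
        induction m with
        | zero => intro y hy; exact hy
        | succ m ih =>
          intro y hy
          rw [Function.iterate_succ_apply]
          exact ih _ (V.2.2 y hy)
      apply le_antisymm
      · intro y hy
        have hy' : t y ∈ V.1 := hy
        obtain ⟨m, hm⟩ : ∃ m, 5 ^ n = m + 1 := ⟨5 ^ n - 1, by
          have : 0 < 5 ^ n := by positivity
          omega⟩
        have h3 := ht y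
        rw [hm, Function.iterate_succ_apply] at h3
        rw [← h3]
        exact hstep m _ hy'
      · intro y hy
        exact V.2.2 y hy
    · intro V
      rfl
    · intro V
      rfl
  rw [h2] at h1
  exact h1

theorem hom_eq {x : X → L} (M : Model R L x) (f g : L →ₗ⁅R⁆ L) (h : ∀ a, f (x a) = g (x a))
    (y : L) : f y = g y := by
  have h2 : ∀ w, f (b2 x w) = g (b2 x w) := by
    intro w
    unfold b2
    rw [LieHom.map_lie, LieHom.map_lie, h, h]
  have h3 : ∀ w, f (b3 x w) = g (b3 x w) := by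
    intro w
    unfold b3
    rw [LieHom.map_lie, LieHom.map_lie, h, h2]
  have h4 : ∀ w, f (b4 x w) = g (b4 x w) := by
    intro w
    unfold b4
    rw [LieHom.map_lie, LieHom.map_lie, h, h3]
  have hy := M.span y
  induction hy using Submodule.span_induction with
  | mem y h =>
    rcases h with ((⟨a, rfl⟩ | ⟨w, rfl⟩) | ⟨w, rfl⟩) | ⟨w, rfl⟩
    · exact h a
    · exact h2 w
    · exact h3 w
    · exact h4 w
  | zero => rw [map_zero, map_zero]
  | add v w _ _ h1 h2 => rw [map_add, map_add, h1, h2]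
  | smul c v _ h1 => rw [map_smul, map_smul, h1]

/-- composition powers of a Lie endomorphism -/
def ipow (t : L →ₗ⁅R⁆ L) : ℕ → (L →ₗ⁅R⁆ L)
  | 0 => LieHom.id
  | m + 1 => (ipow t m).comp t

theorem ipow_apply (t : L →ₗ⁅R⁆ L) (m : ℕ) (y : L) : ipow t m y = t^[m] y := by
  induction m generalizing y with
  | zero => rfl
  | succ m ih =>
    rw [Function.iterate_succ_apply, ← ih]
    rfl

theorem surj_of_iter (t : L →ₗ⁅R⁆ L) (m : ℕ) (hm : 0 < m) (ht : ∀ x, t^[m] x = x) :
    Function.Surjective t := by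
  intro y
  obtain ⟨m, rfl⟩ : ∃ n, m = n + 1 := ⟨m - 1, by omega⟩
  exact ⟨t^[m] y, by rw [← Function.iterate_succ_apply' t]; exact ht y⟩

theorem lcs_comap (t : L →ₗ⁅R⁆ L) (ht : Function.Surjective t) (k : ℕ) (I : LieIdeal R L)
    (h : LieModule.lowerCentralSeries R L L k ≤ LieIdeal.comap t I) :
    LieModule.lowerCentralSeries R L L k ≤ I := by
  rw [← LieIdeal.lowerCentralSeries_map_eq k ht]
  exact LieIdeal.map_le_iff_le_comap.2 h

/-- a family of submodules permuted by a homomorphism of finite order : gradedness of the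
comap -/
theorem graded_comap (t : L →ₗ⁅R⁆ L) (m : ℕ) (hm : 0 < m) (ht : ∀ x, t^[m] x = x)
    (G : ℕ → Submodule R L) (hG : ∀ i, ∃ j, ∀ y ∈ G i, t y ∈ G j) (I : LieIdeal R L)
    (hI : ∀ y ∈ I, y ∈ ⨆ i, (I.toSubmodule ⊓ G i)) :
    ∀ y ∈ LieIdeal.comap t I, y ∈ ⨆ i, ((LieIdeal.comap t I).toSubmodule ⊓ G i) := by
  obtain ⟨m, rfl⟩ : ∃ n, m = n + 1 := ⟨m - 1, by omega⟩
  have hiter : ∀ (n i : ℕ), ∃ j, ∀ y ∈ G i, t^[n] y ∈ G j := by
    intro n
    induction n with
    | zero => intro i; exact ⟨i, fun y hy => hy⟩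
    | succ n ih =>
      intro i
      obtain ⟨j, hj⟩ := hG i
      obtain ⟨l, hl⟩ := ih j
      exact ⟨l, fun y hy => by
        rw [Function.iterate_succ_apply]
        exact hl _ (hj y hy)⟩
  intro y hy
  have h1 := hI (t y) hy
  have h2 : (⨆ i, (I.toSubmodule ⊓ G i)).map (ipow t m : L →ₗ[R] L) ≤
      ⨆ i, ((LieIdeal.comap t I).toSubmodule ⊓ G i) := by
    rw [Submodule.map_iSup]
    refine iSup_le fun i => ?_
    obtain ⟨j, hj⟩ := hiter m i
    refine le_trans ?_ (le_iSup (fun i => (LieIdeal.comap t I).toSubmodule ⊓ G i) j)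
    rintro _ ⟨u, ⟨hu1, hu2⟩, rfl⟩
    refine ⟨?_, ?_⟩
    · change t (ipow t m u) ∈ I
      rw [ipow_apply, ← Function.iterate_succ_apply' t, ht]
      exact hu1
    · change ipow t m u ∈ G j
      rw [ipow_apply]
      exact hj u hu2
  have h3 : ipow t m (t y) = y := by
    rw [ipow_apply, ← Function.iterate_succ_apply, ht]
  rw [← h3]
  exact h2 ⟨t y, h1, rfl⟩

end GF

/-- the effect of the rotation on weights -/
def th (j : ℕ) : ℕ := (j % 5) * 5 + (j / 5 % 5) * 25 + (j / 25 % 5) * 125 +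
  (j / 125 % 5) * 625 + (j / 625 % 5) + (j / 3125 % 5) * 3125

theorem th1 : ∀ a : X, wt (rot a) = th (wt a) := by decide

theorem th2 : ∀ w : W2, wt2 (rot2 w) = th (wt2 w) := by decide +kernel

theorem th3 : ∀ w : W3, wt3 (rot3 w) = th (wt3 w) := by decide +kernel

theorem th4 : ∀ w : W4, wt4 (rot4 w) = th (wt4 w) := by decide +kernel

theorem rot_five : ∀ a : X, rot (rot (rot (rot (rot a)))) = a := by decide

section RR

variable {R L : Type} [CommRing R] [LieRing L] [LieAlgebra R L] {x : X → L}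

theorem rho_wsp (t : L →ₗ⁅R⁆ L) (ht : ∀ a, t (x a) = x (rot a)) (j : ℕ) (y : L)
    (hy : y ∈ wsp R x j) : t y ∈ wsp R x (th j) := by
  have e2 : ∀ w, t (b2 x w) = b2 x (rot2 w) := by
    intro w
    unfold b2
    rw [LieHom.map_lie, ht, ht]
    rfl
  have e3 : ∀ w, t (b3 x w) = b3 x (rot3 w) := by
    intro w
    unfold b3
    rw [LieHom.map_lie, ht, e2]
    rfl
  have e4 : ∀ w, t (b4 x w) = b4 x (rot4 w) := by
    intro w
    unfold b4
    rw [LieHom.map_lie, ht, e3]
    rfl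
  unfold wsp at hy
  induction hy using Submodule.span_induction with
  | mem y h =>
    apply Submodule.subset_span
    rcases h with ((⟨a, h, rfl⟩ | ⟨w, h, rfl⟩) | ⟨w, h, rfl⟩) | ⟨w, h, rfl⟩
    · exact Or.inl (Or.inl (Or.inl ⟨rot a, by rw [th1, h], ht a⟩))
    · exact Or.inl (Or.inl (Or.inr ⟨rot2 w, by rw [th2, h], e2 w⟩))
    · exact Or.inl (Or.inr ⟨rot3 w, by rw [th3, h], e3 w⟩)
    · exact Or.inr ⟨rot4 w, by rw [th4, h], e4 w⟩
  | zero => rw [map_zero]; exact Submodule.zero_mem _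
  | add v w _ _ h1 h2 => rw [map_add]; exact Submodule.add_mem _ h1 h2
  | smul c v _ h1 => rw [map_smul]; exact Submodule.smul_mem _ c h1

end RR

theorem fixR_main : S_FixR := by
  intro p _ L _ _ x hM n hfin
  obtain ⟨M⟩ := hM
  obtain ⟨t, ht⟩ : ∃ t : L →ₗ⁅ℤ_[p]⁆ L, ∀ a, t (x a) = x (rot a) :=
    ⟨M.lift fun a => x (rot a), fun a => M.lift_x _ a⟩
  have ht5 : ∀ y, t^[5 ^ 1] y = y := by
    intro y
    have h1 := hom_eq M (ipow t (5 ^ 1)) LieHom.id (fun a => by
      rw [ipow_apply]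
      change t (t (t (t (t (x a))))) = x a
      rw [ht, ht, ht, ht, ht, rot_five]) y
    rw [ipow_apply] at h1
    exact h1
  have hsurj := surj_of_iter t (5 ^ 1) (by norm_num) ht5
  have h1 := ideal_fix_count t 1 ht5 (fun I => MG x I ∧
    Nat.card (L ⧸ (I : Submodule ℤ_[p] L)) = p ^ n ∧
    ¬ (LieModule.lowerCentralSeries ℤ_[p] L L 3 ≤ I))
    (hfin.subset fun I hI => hI.2.1) (fun I hI => ⟨?_, ?_, ?_⟩)
  · have h2 : {I : LieIdeal ℤ_[p] L | (MG x I ∧
        Nat.card (L ⧸ (I : Submodule ℤ_[p] L)) = p ^ n ∧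
        ¬ (LieModule.lowerCentralSeries ℤ_[p] L L 3 ≤ I)) ∧ ∀ y ∈ I, t y ∈ I} =
        FixedIdeals (R := ℤ_[p]) x (p ^ n) := by
      ext I
      constructor
      · rintro ⟨⟨h3, h4, h5⟩, h6⟩
        refine ⟨h3, ?_, h4, h5⟩
        intro f hf y hy
        rw [hom_eq M f t (fun a => by rw [hf, ht]) y]
        exact h6 y hy
      · rintro ⟨h3, h6, h4, h5⟩
        exact ⟨⟨h3, h4, h5⟩, h6 t ht⟩
    rw [h2] at h1
    exact h1
  · exact graded_comap t (5 ^ 1) (by norm_num) ht5 (wsp ℤ_[p] x)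
      (fun i => ⟨th i, fun y hy => rho_wsp t ht i y hy⟩) I hI.1
  · exact (card_comap t hsurj I).trans hI.2.1
  · intro h
    exact hI.2.2 (lcs_comap t hsurj 3 I h)

end Pool.Agent.W880.UF
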