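import Mathlib
import Pool.Agent.W373.Unif.Statements
import Pool.Agent.W880.UF.FixA

set_option autoImplicit false
open Finset

/-!
# W373U-FIXT : the torus step
-/

namespace Pool.Agent.W880.UF
open Pool.Agent.W373.Unif

section Zeta

/-- roots of unity in the `p`-adic integers -/
theorem exists_zeta (p : ℕ) [Fact p.Prime] (N : ℕ) (hN : 0 < N) (hp : N ∣ p - 1) :
    ∃ ζ : ℤ_[p], IsPrimitiveRoot ζ N := by
  have hp1 : 1 < p := (Fact.out : p.Prime).one_lt
  obtain ⟨d, hd⟩ := hp
  have hd0 : 0 < d := by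
    rcases Nat.eq_zero_or_pos d with h | h
    · rw [h, mul_zero] at hd
      omega
    · exact h
  obtain ⟨g, hg⟩ := IsCyclic.exists_ofOrder_eq_natCard (α := (ZMod p)ˣ)
  rw [Nat.card_eq_fintype_card, ZMod.card_units] at hg
  obtain ⟨u, hu⟩ : ∃ u : (ZMod p)ˣ, orderOf u = N := by
    refine ⟨g ^ d, ?_⟩
    rw [orderOf_pow' g hd0.ne', hg, hd, Nat.gcd_mul_left_left, Nat.mul_div_cancel _ hd0]
  have hNp : ¬ p ∣ N := by
    intro h
    have h1 := Nat.le_of_dvd hN h
    have h2 : N ≤ p - 1 := by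
      rw [hd]
      exact Nat.le_mul_of_pos_right N hd0
    omega
  obtain ⟨a, ha⟩ : ∃ a : ℤ_[p], PadicInt.toZMod a = (u : ZMod p) :=
    ⟨((u : ZMod p).val : ℤ_[p]), by simp⟩
  have hmax : ∀ z : ℤ_[p], z ∈ IsLocalRing.maximalIdeal ℤ_[p] ↔ PadicInt.toZMod z = 0 := by
    intro z
    rw [← PadicInt.ker_toZMod, RingHom.mem_ker]
  have huN : ((u : ZMod p)) ^ N = 1 := by
    rw [← Units.val_pow_eq_pow_val, ← hu, pow_orderOf_eq_one, Units.val_one]
  have hmon : (Polynomial.X ^ N - 1 : Polynomial ℤ_[p]).Monic := by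
    have := Polynomial.monic_X_pow_sub_C (1 : ℤ_[p]) hN.ne'
    rwa [map_one] at this
  obtain ⟨z, hz, hza⟩ := HenselianRing.is_henselian (I := IsLocalRing.maximalIdeal ℤ_[p])
    (Polynomial.X ^ N - 1 : Polynomial ℤ_[p]) hmon a (by
      rw [hmax]
      simp [ha, huN]) (by
      apply IsUnit.map
      rw [← IsLocalRing.notMem_maximalIdeal, hmax]
      have h1 : (Polynomial.derivative (Polynomial.X ^ N - 1 : Polynomial ℤ_[p])).eval a =
        N * a ^ (N - 1) := by simp [Polynomial.derivative_X_pow]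
      rw [h1, map_mul, map_pow, ha, map_natCast]
      intro h2
      rcases mul_eq_zero.1 h2 with h3 | h3
      · exact hNp ((ZMod.natCast_eq_zero_iff N p).1 h3)
      · exact pow_ne_zero _ u.ne_zero h3)
  have hz1 : z ^ N = 1 := by
    have h1 : (Polynomial.X ^ N - 1 : Polynomial ℤ_[p]).eval z = 0 := hz
    rw [Polynomial.eval_sub, Polynomial.eval_pow, Polynomial.eval_X, Polynomial.eval_one,
      sub_eq_zero] at h1
    exact h1
  have hzu : PadicInt.toZMod z = (u : ZMod p) := by
    rw [hmax, map_sub, ha, sub_eq_zero] at hza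
    exact hza
  refine ⟨z, ⟨hz1, fun l hl => ?_⟩⟩
  have h2 : ((u : ZMod p)) ^ l = 1 := by
    rw [← hzu, ← map_pow, hl, map_one]
  have h3 : u ^ l = 1 := by
    apply Units.ext
    rw [Units.val_pow_eq_pow_val, h2, Units.val_one]
  rw [← hu]
  exact orderOf_dvd_of_pow_eq_one h3

theorem unit_N (p : ℕ) [Fact p.Prime] (N : ℕ) (hN : ¬ p ∣ N) : ∃ c : ℤ_[p], c * N = 1 := by
  have h1 : IsUnit ((N : ℕ) : ℤ_[p]) := by
    rw [← IsLocalRing.notMem_maximalIdeal, ← PadicInt.ker_toZMod, RingHom.mem_ker, map_natCast]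
    intro h
    exact hN ((ZMod.natCast_eq_zero_iff N p).1 h)
  obtain ⟨v, hv⟩ := h1
  exact ⟨(v⁻¹ : (ℤ_[p])ˣ), by rw [← hv, Units.inv_mul]⟩

end Zeta

/-- digit sum -/
def ds (j : ℕ) : ℕ := (j % 5) + (j / 5 % 5) + (j / 25 % 5) + (j / 125 % 5) +
  (j / 625 % 5) + (j / 3125 % 5)

theorem ds1 : ∀ a : X, ds (wt a) = 1 ∧ wt a < 5 ^ 6 := by decide

theorem ds2 : ∀ w : W2, ds (wt2 w) = 2 ∧ wt2 w < 5 ^ 6 := by decide +kernel

theorem ds3 : ∀ w : W3, ds (wt3 w) = 3 ∧ wt3 w < 5 ^ 6 := by decide +kernel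

theorem ds4 : ∀ w : W4, ds (wt4 w) = 4 ∧ wt4 w < 5 ^ 6 := by decide +kernel

section TT

variable {R L : Type} [CommRing R] [LieRing L] [LieAlgebra R L] {x : X → L}

theorem tt_wsp (ζ : R) (t : L →ₗ⁅R⁆ L) (ht : ∀ a, t (x a) = ζ ^ wt a • x a) (j : ℕ) (y : L)
    (hy : y ∈ wsp R x j) : t y = ζ ^ j • y := by
  have e2 : ∀ w, t (b2 x w) = ζ ^ wt2 w • b2 x w := by
    intro w
    unfold b2
    rw [LieHom.map_lie, ht, ht, smul_lie, lie_smul, smul_smul, ← pow_add]
    rfl
  have e3 : ∀ w, t (b3 x w) = ζ ^ wt3 w • b3 x w := by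
    intro w
    unfold b3
    rw [LieHom.map_lie, ht, e2, smul_lie, lie_smul, smul_smul, ← pow_add]
    rfl
  have e4 : ∀ w, t (b4 x w) = ζ ^ wt4 w • b4 x w := by
    intro w
    unfold b4
    rw [LieHom.map_lie, ht, e3, smul_lie, lie_smul, smul_smul, ← pow_add]
    rfl
  unfold wsp at hy
  induction hy using Submodule.span_induction with
  | mem y h =>
    rcases h with ((⟨a, h, rfl⟩ | ⟨w, h, rfl⟩) | ⟨w, h, rfl⟩) | ⟨w, h, rfl⟩
    · rw [← h]
      exact ht a
    · rw [← h]
      exact e2 w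
    · rw [← h]
      exact e3 w
    · rw [← h]
      exact e4 w
  | zero => rw [map_zero, smul_zero]
  | add v w _ _ h1 h2 => rw [map_add, smul_add, h1, h2]
  | smul c v _ h1 => rw [map_smul, h1, smul_comm]

theorem tt_gr (ζ : R) (t : L →ₗ⁅R⁆ L) (ht : ∀ a, t (x a) = ζ ^ wt a • x a) (i : ℕ) (y : L)
    (hy : y ∈ gr R x i) : t y ∈ gr R x i := by
  have h1 : ∀ (j : X) (w : List X), ∃ c : R,
      t (List.foldr (fun (k : X) (a : L) => ⁅x k, a⁆) (x j) w) =
      c • List.foldr (fun (k : X) (a : L) => ⁅x k, a⁆) (x j) w := by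
    intro j w
    induction w with
    | nil => exact ⟨_, ht j⟩
    | cons a w ih =>
      obtain ⟨c, hc⟩ := ih
      refine ⟨ζ ^ wt a * c, ?_⟩
      rw [List.foldr_cons, LieHom.map_lie, hc, ht, smul_lie, lie_smul, smul_smul]
  unfold gr at hy
  induction hy using Submodule.span_induction with
  | mem y h =>
    obtain ⟨j, w, hw, rfl⟩ := h
    obtain ⟨c, hc⟩ := h1 j w
    rw [hc]
    exact Submodule.smul_mem _ c (Submodule.subset_span ⟨j, w, hw, rfl⟩)
  | zero => rw [map_zero]; exact Submodule.zero_mem _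
  | add v w _ _ h1 h2 => rw [map_add]; exact Submodule.add_mem _ h1 h2
  | smul c v _ h1 => rw [map_smul]; exact Submodule.smul_mem _ c h1

theorem wsp_gr (j : ℕ) : wsp R x j ≤ gr R x (ds j - 1) := by
  unfold wsp
  rw [Submodule.span_le]
  rintro y (((⟨a, h, rfl⟩ | ⟨w, h, rfl⟩) | ⟨w, h, rfl⟩) | ⟨w, h, rfl⟩)
  · rw [← h, (ds1 a).1]
    exact Submodule.subset_span ⟨a, [], rfl, rfl⟩
  · rw [← h, (ds2 w).1]
    exact Submodule.subset_span ⟨w.2, [w.1], rfl, rfl⟩
  · rw [← h, (ds3 w).1]
    exact Submodule.subset_span ⟨w.2.2, [w.1, w.2.1], rfl, rfl⟩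
  · rw [← h, (ds4 w).1]
    exact Submodule.subset_span ⟨w.2.2.2, [w.1, w.2.1, w.2.2.1], rfl, rfl⟩

theorem iter_smul (t : L →ₗ⁅R⁆ L) (z : R) (y : L) (h : t y = z • y) (m : ℕ) :
    t^[m] y = z ^ m • y := by
  induction m with
  | zero => simp
  | succ m ih =>
    rw [Function.iterate_succ_apply', ih, map_smul, h, smul_smul, pow_succ]

theorem word_cases (M : Model R L x) (Q : L → Prop) (h0 : Q 0) (ha : ∀ u v, Q u → Q v → Q (u + v))
    (hs : ∀ (c : R) u, Q u → Q (c • u)) (hw : ∀ i, i < 5 ^ 6 → ∀ u ∈ wsp R x i, Q u) (y : L) :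
    Q y := by
  have hy := M.span y
  induction hy using Submodule.span_induction with
  | mem y h =>
    rcases h with ((⟨a, rfl⟩ | ⟨w, rfl⟩) | ⟨w, rfl⟩) | ⟨w, rfl⟩
    · exact hw _ (ds1 a).2 _ (Submodule.subset_span (Or.inl (Or.inl (Or.inl ⟨a, rfl, rfl⟩))))
    · exact hw _ (ds2 w).2 _ (Submodule.subset_span (Or.inl (Or.inl (Or.inr ⟨w, rfl, rfl⟩))))
    · exact hw _ (ds3 w).2 _ (Submodule.subset_span (Or.inl (Or.inr ⟨w, rfl, rfl⟩)))
    · exact hw _ (ds4 w).2 _ (Submodule.subset_span (Or.inr ⟨w, rfl, rfl⟩))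
  | zero => exact h0
  | add v w _ _ h1 h2 => exact ha _ _ h1 h2
  | smul c v _ h1 => exact hs _ _ h1

theorem geom_root [IsDomain R] (ζ : R) (N : ℕ) (hζ : IsPrimitiveRoot ζ N) (i j : ℕ)
    (hi : i < N) (hj : j < N) :
    ∑ s ∈ range N, (ζ ^ (N - j) * ζ ^ i) ^ s = if i = j then (N : R) else 0 := by
  have h1 : ζ ^ (N - j) * ζ ^ i = ζ ^ (N - j + i) := by rw [pow_add]
  rw [h1]
  split_ifs with h
  · subst h
    have h2 : N - i + i = N := by omega
    rw [h2, hζ.pow_eq_one]
    simp
  · have h2 : ζ ^ (N - j + i) ≠ 1 := by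
      intro h3
      obtain ⟨c, hc⟩ := hζ.dvd_of_pow_eq_one _ h3
      rcases c with _ | _ | c
      · omega
      · omega
      · have : N * (c + 1 + 1) = N * c + N + N := by ring
        have h4 : 0 ≤ N * c := Nat.zero_le _
        omega
    have h3 := mul_neg_geom_sum (ζ ^ (N - j + i)) N
    have h4 : (ζ ^ (N - j + i)) ^ N = 1 := by
      rw [← pow_mul, mul_comm, pow_mul, hζ.pow_eq_one, one_pow]
    rw [h4, sub_self] at h3
    rcases mul_eq_zero.1 h3 with h5 | h5
    · exact absurd (sub_eq_zero.1 h5).symm h2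
    · exact h5

end TT

theorem fixT_main : S_FixT := by
  intro p _ L _ _ x hM hp n hfin
  obtain ⟨M⟩ := hM
  obtain ⟨N, hN⟩ : ∃ N : ℕ, N = 5 ^ 6 := ⟨_, rfl⟩
  have hN0 : 0 < N := by rw [hN]; norm_num
  have hpN : N ∣ p - 1 := by
    rw [hN]
    omega
  obtain ⟨ζ, hζ⟩ := exists_zeta p N hN0 hpN
  have hpn : ¬ p ∣ N := by
    intro h
    have h1 : p ∣ 5 := by
      rw [hN] at h
      exact (Fact.out : p.Prime).dvd_of_dvd_pow h
    have h2 := Nat.le_of_dvd (by norm_num) h1
    have h3 := (Fact.out : p.Prime).one_lt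
    have h4 : p % 5 ^ 6 = p := Nat.mod_eq_of_lt (by
      have : (5 : ℕ) < 5 ^ 6 := by norm_num
      omega)
    omega
  obtain ⟨c, hc⟩ := unit_N p N hpn
  obtain ⟨t, ht⟩ : ∃ t : L →ₗ⁅ℤ_[p]⁆ L, ∀ a, t (x a) = ζ ^ wt a • x a :=
    ⟨M.lift fun a => ζ ^ wt a • x a, fun a => M.lift_x _ a⟩
  have htw := tt_wsp ζ t ht
  have ht6 : ∀ y, t^[5 ^ 6] y = y := by
    rw [← hN]
    intro y
    have h1 := hom_eq M (ipow t N) LieHom.id (fun a => by
      rw [ipow_apply, iter_smul t _ _ (ht a), ← pow_mul, mul_comm, pow_mul, hζ.pow_eq_one,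
        one_pow, one_smul]
      rfl) y
    rw [ipow_apply] at h1
    exact h1
  have hsurj := surj_of_iter t (5 ^ 6) (by norm_num) ht6
  have h1 := ideal_fix_count t 6 ht6 (fun I => I ∈ GI ℤ_[p] x (p ^ n) ∧
    ¬ (LieModule.lowerCentralSeries ℤ_[p] L L 3 ≤ I))
    (hfin.subset fun I hI => hI.1.2) (fun I hI => ⟨⟨?_, ?_⟩, ?_⟩)
  · have h2 : {I : LieIdeal ℤ_[p] L | (I ∈ GI ℤ_[p] x (p ^ n) ∧
        ¬ (LieModule.lowerCentralSeries ℤ_[p] L L 3 ≤ I)) ∧ ∀ y ∈ I, t y ∈ I} =
        {I : LieIdeal ℤ_[p] L | MG x I ∧ Nat.card (L ⧸ (I : Submodule ℤ_[p] L)) = p ^ n ∧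
        ¬ (LieModule.lowerCentralSeries ℤ_[p] L L 3 ≤ I)} := by
      ext I
      constructor
      · rintro ⟨⟨⟨h3, h4⟩, h5⟩, h6⟩
        refine ⟨?_, h4, h5⟩
        -- projections
        obtain ⟨P, hP⟩ : ∃ P : ℕ → L → L, ∀ j y, P j y =
            c • ∑ s ∈ range N, ((ζ ^ (N - j)) ^ s) • t^[s] y := ⟨_, fun _ _ => rfl⟩
        have hPw : ∀ j, j < N → ∀ i, i < N → ∀ y ∈ wsp ℤ_[p] x i,
            P j y = if i = j then y else 0 := by
          intro j hj i hi y hy
          rw [hP]
          have h7 : ∀ s ∈ range N, ((ζ ^ (N - j)) ^ s) • t^[s] y =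
              ((ζ ^ (N - j) * ζ ^ i) ^ s) • y := by
            intro s _
            rw [iter_smul t _ _ (htw i y hy), smul_smul, mul_pow]
          rw [sum_congr rfl h7, ← sum_smul, geom_root ζ N hζ i j hi hj]
          split_ifs with h
          · rw [smul_smul, hc, one_smul]
          · rw [zero_smul, smul_zero]
        have htl : ∀ (s : ℕ) (u v : L), t^[s] (u + v) = t^[s] u + t^[s] v := by
          intro s u v
          rw [← ipow_apply, ← ipow_apply, ← ipow_apply, map_add]
        have hts : ∀ (s : ℕ) (a : ℤ_[p]) (v : L), t^[s] (a • v) = a • t^[s] v := by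
          intro s a v
          rw [← ipow_apply, ← ipow_apply, map_smul]
        have hPa : ∀ j u v, P j (u + v) = P j u + P j v := by
          intro j u v
          rw [hP, hP, hP, ← smul_add, ← sum_add_distrib]
          congr 1
          refine sum_congr rfl fun s _ => ?_
          rw [htl, smul_add]
        have hPs : ∀ j (a : ℤ_[p]) v, P j (a • v) = a • P j v := by
          intro j a v
          have h8 : ∑ s ∈ range N, ((ζ ^ (N - j)) ^ s) • t^[s] (a • v) =
              a • ∑ s ∈ range N, ((ζ ^ (N - j)) ^ s) • t^[s] v := by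
            rw [smul_sum]
            refine sum_congr rfl fun s _ => ?_
            rw [hts, smul_comm]
          rw [hP, hP, h8, smul_comm]
        have hP0 : ∀ j, P j 0 = 0 := by
          intro j
          have := hPs j 0 0
          rwa [zero_smul, zero_smul] at this
        have hPm : ∀ j, j < N → ∀ y, P j y ∈ wsp ℤ_[p] x j := by
          intro j hj y
          refine word_cases M (fun y => P j y ∈ wsp ℤ_[p] x j) ?_ ?_ ?_ ?_ y
          · rw [hP0]
            exact Submodule.zero_mem _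
          · intro u v hu hv
            change P j (u + v) ∈ _
            rw [hPa]
            exact Submodule.add_mem _ hu hv
          · intro a u hu
            change P j (a • u) ∈ _
            rw [hPs]
            exact Submodule.smul_mem _ _ hu
          · intro i hi u hu
            change P j u ∈ _
            rw [← hN] at hi
            rw [hPw j hj i hi u hu]
            split_ifs with h
            · rw [← h]
              exact hu
            · exact Submodule.zero_mem _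
        have hPsum : ∀ y, ∑ j ∈ range N, P j y = y := by
          intro y
          refine word_cases M (fun y => ∑ j ∈ range N, P j y = y) ?_ ?_ ?_ ?_ y
          · simp only [hP0, sum_const_zero]
          · intro u v hu hv
            simp only [hPa, sum_add_distrib]
            rw [hu, hv]
          · intro a u hu
            simp only [hPs]
            rw [← smul_sum, hu]
          · intro i hi u hu
            rw [← hN] at hi
            have h7 : ∀ j ∈ range N, P j u = if i = j then u else 0 := fun j hj =>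
              hPw j (mem_range.1 hj) i hi u hu
            rw [sum_congr rfl h7, sum_ite_eq, if_pos (mem_range.2 hi)]
        intro y hy
        have hstep : ∀ (m : ℕ) (y : L), y ∈ I → t^[m] y ∈ I := by
          intro m
          induction m with
          | zero => intro y hy; exact hy
          | succ m ih =>
            intro y hy
            rw [Function.iterate_succ_apply]
            exact ih _ (h6 y hy)
        have hPI : ∀ j, P j y ∈ I := by
          intro j
          rw [hP]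
          exact I.toSubmodule.smul_mem _ (I.toSubmodule.sum_mem fun s _ =>
            I.toSubmodule.smul_mem _ (hstep s y hy))
        have key : ∑ j ∈ range N, P j y ∈ (⨆ j : ℕ, (I.toSubmodule ⊓ wsp ℤ_[p] x j)) := by
          refine Submodule.sum_mem (⨆ j : ℕ, (I.toSubmodule ⊓ wsp ℤ_[p] x j)) fun j hj => ?_
          exact (le_iSup (fun j => I.toSubmodule ⊓ wsp ℤ_[p] x j) j)
            ⟨hPI j, hPm j (mem_range.1 hj) y⟩
        rw [hPsum] at key
        exact key
      · rintro ⟨h3, h4, h5⟩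
        refine ⟨⟨⟨?_, h4⟩, h5⟩, ?_⟩
        · apply le_antisymm
          · intro y hy
            have h6 := h3 y hy
            have h7 : (⨆ j : ℕ, (I.toSubmodule ⊓ wsp ℤ_[p] x j)) ≤
                ⨆ i : ℕ, (I.toSubmodule ⊓ gr ℤ_[p] x i) :=
              iSup_le fun j => le_trans (inf_le_inf_left _ (wsp_gr j))
                (le_iSup (fun i : ℕ => I.toSubmodule ⊓ gr ℤ_[p] x i) (ds j - 1))
            exact h7 h6
          · exact iSup_le fun i => inf_le_left
        · intro y hy
          have h6 := h3 y hy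
          have h7 : (⨆ j : ℕ, (I.toSubmodule ⊓ wsp ℤ_[p] x j)) ≤
              I.toSubmodule.comap (t : L →ₗ[ℤ_[p]] L) := by
            refine iSup_le fun j => ?_
            rintro u ⟨hu1, hu2⟩
            change t u ∈ I
            rw [htw j u hu2]
            exact I.toSubmodule.smul_mem _ hu1
          exact h7 h6
    rw [h2] at h1
    exact h1
  · have h2 := graded_comap t (5 ^ 6) (by norm_num) ht6 (gr ℤ_[p] x)
      (fun i => ⟨i, fun y hy => tt_gr ζ t ht i y hy⟩) I (fun y hy => by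
        have h3 : y ∈ I.toSubmodule := hy
        have h4 : I.toSubmodule = ⨆ i : ℕ, (I.toSubmodule ⊓ gr ℤ_[p] x i) := hI.1.1
        rw [h4] at h3
        exact h3)
    apply le_antisymm
    · intro y hy
      exact h2 y hy
    · exact iSup_le fun i => inf_le_left
  · exact (card_comap t hsurj I).trans hI.1.2
  · intro h
    exact hI.2 (lcs_comap t hsurj 3 I h)

end Pool.Agent.W880.UF
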