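import Mathlib
import Pool.Agent.W373.Unif.Statements

set_option autoImplicit false
open Finset

/-!
# Counting subspaces modulo 5 by fixed points
-/

namespace Pool.Agent.W880.UF
open Pool.Agent.W373.Unif

section Fix

set_option linter.unusedSectionVars false

variable {k U : Type} [Field k] [Finite k] [AddCommGroup U] [Module k U] [FiniteDimensional k U]

theorem fin_sub : Finite (Submodule k U) := by
  have : Finite U := Module.finite_of_finite k
  exact Finite.of_injective (fun V : Submodule k U => (V : Set U)) SetLike.coe_injective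

theorem comap_iter (t : U →ₗ[k] U) (m : ℕ) (V : Submodule k U) (x : U) :
    x ∈ ((fun W : Submodule k U => W.comap t)^[m] V) ↔ t^[m] x ∈ V := by
  induction m generalizing x with
  | zero => rfl
  | succ m ih =>
    rw [Function.iterate_succ_apply', Submodule.mem_comap, ih, Function.iterate_succ_apply]

theorem fix_count (t : U →ₗ[k] U) (n : ℕ) (ht : ∀ x, t^[5 ^ n] x = x)
    (P : Submodule k U → Prop) (hP : ∀ V, P V → P (V.comap t)) (c : ℕ)
    (hc : ∀ V, P V → Module.finrank k V = c) :
    Nat.card {V : Submodule k U // P V} ≡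
      Nat.card {V : Submodule k U // P V ∧ ∀ F ∈ V, t F ∈ V} [MOD 5] := by
  classical
  have hfin : Finite (Submodule k U) := fin_sub
  have h5 : Fact (Nat.Prime 5) := ⟨by norm_num⟩
  let f : Function.End {V : Submodule k U // P V} := fun V => ⟨V.1.comap t, hP _ V.2⟩
  have hval : ∀ (m : ℕ) (V : {V : Submodule k U // P V}),
      ((f ^ m) V).1 = ((fun W : Submodule k U => W.comap t)^[m] V.1) := by
    intro m V
    induction m with
    | zero => rfl
    | succ m ih =>
      rw [Function.iterate_succ_apply', ← ih, pow_succ']
      rfl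
  have hf : f ^ 5 ^ n = 1 := by
    funext V
    apply Subtype.ext
    rw [hval]
    ext x
    rw [comap_iter, ht]
    rfl
  have hft : Fintype {V : Submodule k U // P V} := Fintype.ofFinite _
  have h1 := Equiv.Perm.card_fixedPoints_modEq (α := {V : Submodule k U // P V}) hf
  simp only [← Nat.card_eq_fintype_card] at h1
  have h2 : Nat.card f.fixedPoints =
      Nat.card {V : Submodule k U // P V ∧ ∀ F ∈ V, t F ∈ V} := by
    refine Nat.card_congr ⟨fun V => ⟨V.1.1, V.1.2, ?_⟩, fun V => ⟨⟨V.1, V.2.1⟩, ?_⟩, ?_, ?_⟩
    · intro F hF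
      have h3 : f V.1 = V.1 := V.2
      have h4 : V.1.1.comap t = V.1.1 := congrArg Subtype.val h3
      rw [← h4] at hF
      exact hF
    · apply Subtype.ext
      change V.1.comap t = V.1
      have h3 : V.1 ≤ V.1.comap t := fun F hF => V.2.2 F hF
      refine (Submodule.eq_of_le_of_finrank_eq h3 ?_).symm
      rw [hc _ V.2.1, hc _ (hP _ V.2.1)]
    · intro V
      rfl
    · intro V
      rfl
  rw [h2] at h1
  exact h1

end Fix

section Tor

variable {k W : Type} [Field k]

open Polynomial in
theorem stab_poly (V : Submodule k (W → k)) (lam : W → k)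
    (hV : ∀ F ∈ V, (fun w => lam w * F w) ∈ V) (P : k[X]) :
    ∀ F ∈ V, (fun w => P.eval (lam w) * F w) ∈ V := by
  induction P using Polynomial.induction_on' with
  | add p q hp hq =>
    intro F hF
    have h1 : (fun w => (p + q).eval (lam w) * F w) =
        (fun w => p.eval (lam w) * F w) + fun w => q.eval (lam w) * F w := by
      funext w
      rw [Pi.add_apply, eval_add, add_mul]
    rw [h1]
    exact V.add_mem (hp F hF) (hq F hF)
  | monomial n a =>
    have h1 : ∀ (n : ℕ) (F : W → k), F ∈ V → (fun w => lam w ^ n * F w) ∈ V := by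
      intro n
      induction n with
      | zero =>
        intro F hF
        simpa using hF
      | succ n ih =>
        intro F hF
        have h2 := ih _ (hV F hF)
        have h3 : (fun w => lam w ^ (n + 1) * F w) = fun w => lam w ^ n * (lam w * F w) := by
          funext w
          ring
        rw [h3]
        exact h2
    intro F hF
    have h2 : (fun w => (monomial n a).eval (lam w) * F w) = a • fun w => lam w ^ n * F w := by
      funext w
      rw [Pi.smul_apply, eval_monomial, smul_eq_mul, mul_assoc]
    rw [h2]
    exact V.smul_mem a (h1 n F hF)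

/-- torus operator -/
def tor (ζ : k) (wt : W → ℕ) : (W → k) →ₗ[k] (W → k) where
  toFun F w := ζ ^ wt w * F w
  map_add' F G := by
    funext w
    simp only [Pi.add_apply, mul_add]
  map_smul' c F := by
    funext w
    simp only [Pi.smul_apply, smul_eq_mul, RingHom.id_apply]
    ring

theorem tor_apply (ζ : k) (wt : W → ℕ) (F : W → k) (w : W) :
    tor ζ wt F w = ζ ^ wt w * F w := rfl

theorem tor_iter (ζ : k) (wt : W → ℕ) (m : ℕ) (F : W → k) (w : W) :
    (tor ζ wt)^[m] F w = (ζ ^ wt w) ^ m * F w := by
  induction m with
  | zero => simp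
  | succ m ih =>
    rw [Function.iterate_succ_apply', tor_apply, ih]
    ring

theorem tor_order (ζ : k) (wt : W → ℕ) (N : ℕ) (hζ : ζ ^ N = 1) (F : W → k) :
    (tor ζ wt)^[N] F = F := by
  funext w
  rw [tor_iter, ← pow_mul, mul_comm (wt w) N, pow_mul, hζ, one_pow, one_mul]

theorem stabT_iff (ζ : k) (N : ℕ) (hζ : IsPrimitiveRoot ζ N) (wt : W → ℕ)
    (hwt : ∀ w, wt w < N) (V : Submodule k (W → k)) :
    StabT wt V ↔ ∀ F ∈ V, tor ζ wt F ∈ V := by
  classical
  constructor
  · intro h F hF
    have h1 : tor ζ wt F = ∑ j ∈ range N, ζ ^ j • fun w => if wt w = j then F w else 0 := by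
      funext w
      rw [Finset.sum_apply, tor_apply]
      simp only [Pi.smul_apply, smul_eq_mul, mul_ite, mul_zero]
      rw [Finset.sum_ite_eq]
      rw [if_pos (mem_range.2 (hwt w))]
    rw [h1]
    exact V.sum_mem fun j _ => V.smul_mem _ (h F hF j)
  · intro h F hF j
    rcases lt_or_ge j N with hj | hj
    · have hinj : Set.InjOn (fun i : ℕ => ζ ^ i) (range N : Set ℕ) := by
        intro a ha b hb hab
        exact hζ.pow_inj (mem_range.1 ha) (mem_range.1 hb) hab
      have h1 := stab_poly V (fun w => ζ ^ wt w) h
        (Lagrange.basis (range N) (fun i : ℕ => ζ ^ i) j) F hF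
      have h2 : (fun w => if wt w = j then F w else 0) = fun w =>
          (Lagrange.basis (range N) (fun i : ℕ => ζ ^ i) j).eval (ζ ^ wt w) * F w := by
        funext w
        split_ifs with hw
        · rw [hw, Lagrange.eval_basis_self hinj (mem_range.2 hj), one_mul]
        · rw [Lagrange.eval_basis_of_ne (v := fun i : ℕ => ζ ^ i) (Ne.symm hw)
            (mem_range.2 (hwt w)), zero_mul]
      rw [h2]
      exact h1
    · have h1 : (fun w => if wt w = j then F w else 0) = 0 := by
        funext w
        rw [if_neg (by have := hwt w; omega)]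
        rfl
      rw [h1]
      exact V.zero_mem

end Tor

end Pool.Agent.W880.UF
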