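import Mathlib
import Pool.Agent.W373.Unif.Statements
import Pool.Agent.W880.UF.Fix

set_option autoImplicit false
open Finset

/-!
# W373U-STAB and W373U-CNT
-/

namespace Pool.Agent.W880.UF
open Pool.Agent.W373.Unif

section Gen

set_option linter.unusedSectionVars false

variable {k U : Type} [Field k] [AddCommGroup U] [Module k U] [FiniteDimensional k U]

theorem finrank_comap_inj (t : U →ₗ[k] U) (ht : Function.Injective t) (V : Submodule k U) :
    Module.finrank k (V.comap t) = Module.finrank k V := by
  obtain ⟨e, he⟩ : ∃ e : U ≃ₗ[k] U, ∀ x, e x = t x :=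
    ⟨LinearEquiv.ofInjectiveEndo t ht, fun x => rfl⟩
  have h1 : V.comap t = V.map (e.symm : U →ₗ[k] U) := by
    ext x
    rw [Submodule.mem_comap, Submodule.mem_map]
    constructor
    · intro h
      refine ⟨t x, h, ?_⟩
      change e.symm (t x) = x
      rw [← he, e.symm_apply_apply]
    · rintro ⟨y, hy, rfl⟩
      change t (e.symm y) ∈ V
      rw [← he, e.apply_symm_apply]
      exact hy
  rw [h1]
  exact LinearEquiv.finrank_map_eq e.symm V

theorem inj_of_iter (t : U →ₗ[k] U) (m : ℕ) (hm : 0 < m) (ht : ∀ x, t^[m] x = x) :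
    Function.Injective t := by
  obtain ⟨m, rfl⟩ : ∃ n, m = n + 1 := ⟨m - 1, by omega⟩
  intro x y hxy
  rw [← ht x, ← ht y, Function.iterate_succ_apply, Function.iterate_succ_apply, hxy]

theorem stable_back (t : U →ₗ[k] U) (m : ℕ) (hm : 0 < m) (ht : ∀ x, t^[m] x = x)
    (C : Submodule k U) (hC : ∀ x ∈ C, t x ∈ C) (x : U) (hx : t x ∈ C) : x ∈ C := by
  obtain ⟨m, rfl⟩ : ∃ n, m = n + 1 := ⟨m - 1, by omega⟩
  have h1 : ∀ (n : ℕ) (y : U), y ∈ C → t^[n] y ∈ C := by
    intro n
    induction n with
    | zero => intro y hy; exact hy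
    | succ n ih =>
      intro y hy
      rw [Function.iterate_succ_apply]
      exact ih _ (hC y hy)
  rw [← ht x, Function.iterate_succ_apply]
  exact h1 m _ hx

end Gen

/-- rotation operator -/
def rotop (k : Type) [Field k] {W : Type} (r : W → W) : (W → k) →ₗ[k] (W → k) where
  toFun F w := F (r w)
  map_add' _ _ := rfl
  map_smul' _ _ := rfl

theorem rotop_iter (k : Type) [Field k] {W : Type} (r : W → W) (m : ℕ) (F : W → k) (w : W) :
    (rotop k r)^[m] F w = F (r^[m] w) := by
  induction m generalizing w with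
  | zero => rfl
  | succ m ih =>
    rw [Function.iterate_succ_apply', Function.iterate_succ_apply]
    exact ih (r w)

theorem stab_main : S_Stab := by
  intro k W _ _ _ ζ wt r hζ hwt hwr hr C hCT hCR c
  have h0 : Nat.card {V : Submodule k C // Module.finrank k V = c} =
      Nat.card {V : Submodule k (W → k) // V ≤ C ∧ Module.finrank k V = c} := by
    refine Nat.card_congr ⟨fun V => ⟨V.1.map C.subtype, ?_, ?_⟩,
      fun V => ⟨V.1.comap C.subtype, ?_⟩, ?_, ?_⟩
    · exact Submodule.map_subtype_le C V.1
    · rw [Submodule.finrank_map_subtype_eq]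
      exact V.2
    · have h1 := Submodule.finrank_map_subtype_eq C (V.1.comap C.subtype)
      rw [Submodule.map_comap_subtype, inf_eq_right.2 V.2.1, V.2.2] at h1
      exact h1.symm
    · intro V
      apply Subtype.ext
      exact Submodule.comap_map_eq_of_injective (Submodule.injective_subtype C) V.1
    · intro V
      apply Subtype.ext
      change (V.1.comap C.subtype).map C.subtype = V.1
      rw [Submodule.map_comap_subtype, inf_eq_right.2 V.2.1]
  rw [h0]
  have ht : ∀ F : W → k, (tor ζ wt)^[5 ^ 6] F = F := tor_order ζ wt _ hζ.pow_eq_one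
  have hC1 : ∀ F ∈ C, tor ζ wt F ∈ C := (stabT_iff ζ _ hζ wt hwt C).1 hCT
  have h1 := fix_count (tor ζ wt) 6 ht (fun V => V ≤ C ∧ Module.finrank k V = c)
    (fun V hV => ⟨fun F hF => stable_back _ (5 ^ 6) (by norm_num) ht C hC1 F (hV.1 hF), by
      rw [finrank_comap_inj _ (inj_of_iter _ (5 ^ 6) (by norm_num) ht)]
      exact hV.2⟩) c fun V hV => hV.2
  have h2 : Nat.card {V : Submodule k (W → k) // (V ≤ C ∧ Module.finrank k V = c) ∧
      ∀ F ∈ V, tor ζ wt F ∈ V} =
      Nat.card {V : Submodule k (W → k) // V ≤ C ∧ StabT wt V ∧ Module.finrank k V = c} := by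
    refine Nat.card_congr (Equiv.subtypeEquivRight fun V => ?_)
    rw [← stabT_iff ζ _ hζ wt hwt V]
    tauto
  rw [h2] at h1
  refine Nat.ModEq.trans ?_ h1.symm
  have hR : ∀ F : W → k, (rotop k r)^[5 ^ 1] F = F := by
    intro F
    funext w
    rw [rotop_iter, pow_one, hr]
    rfl
  have hC2 : ∀ F ∈ C, rotop k r F ∈ C := hCR
  have h3 := fix_count (rotop k r) 1 hR
    (fun V => V ≤ C ∧ StabT wt V ∧ Module.finrank k V = c)
    (fun V hV => ⟨fun F hF => stable_back _ (5 ^ 1) (by norm_num) hR C hC2 F (hV.1 hF), by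
      intro F hF j
      rw [Submodule.mem_comap] at hF ⊢
      by_cases hj : ∃ w0, wt (r w0) = j
      · obtain ⟨w0, rfl⟩ := hj
        have h4 := hV.2.1 _ hF (wt w0)
        have h5 : (rotop k r) (fun w => if wt w = wt (r w0) then F w else 0) =
            fun w => if wt w = wt w0 then (rotop k r F) w else 0 := by
          funext w
          change (if wt (r w) = wt (r w0) then F (r w) else 0) =
            if wt w = wt w0 then F (r w) else 0
          by_cases h6 : wt w = wt w0
          · rw [if_pos h6, if_pos ((hwr w w0).1 h6)]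
          · rw [if_neg h6, if_neg fun h7 => h6 ((hwr w w0).2 h7)]
        rw [h5]
        exact h4
      · have h5 : (rotop k r) (fun w => if wt w = j then F w else 0) = 0 := by
          funext w
          change (if wt (r w) = j then F (r w) else 0) = 0
          rw [if_neg fun h6 => hj ⟨w, h6⟩]
        rw [h5]
        exact V.zero_mem, by
      rw [finrank_comap_inj _ (inj_of_iter _ (5 ^ 1) (by norm_num) hR)]
      exact hV.2.2⟩) c fun V hV => hV.2.2
  have h4 : Nat.card {V : Submodule k (W → k) // (V ≤ C ∧ StabT wt V ∧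
      Module.finrank k V = c) ∧ ∀ F ∈ V, rotop k r F ∈ V} =
      Nat.card {V : Submodule k (W → k) // V ≤ C ∧ StabT wt V ∧ StabR r V ∧
        Module.finrank k V = c} := by
    refine Nat.card_congr (Equiv.subtypeEquivRight fun V => ?_)
    have h5 : StabR r V ↔ ∀ F ∈ V, rotop k r F ∈ V := Iff.rfl
    rw [h5]
    tauto
  rw [h4] at h3
  exact h3.symm

section Cnt

variable {k : Type} [Field k] {g : ℕ}

/-- coordinate subspaces -/
def coordS (S : Finset (Fin g)) : Submodule k (Fin g → k) where
  carrier := {F | ∀ i, i ∉ S → F i = 0}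
  add_mem' := fun hF hG i hi => by rw [Pi.add_apply, hF i hi, hG i hi, add_zero]
  zero_mem' := fun _ _ => rfl
  smul_mem' := fun c F hF i hi => by rw [Pi.smul_apply, hF i hi, smul_zero]

theorem mem_coordS (S : Finset (Fin g)) (F : Fin g → k) :
    F ∈ coordS (k := k) S ↔ ∀ i, i ∉ S → F i = 0 := Iff.rfl

theorem finrank_coordS (S : Finset (Fin g)) : Module.finrank k (coordS (k := k) S) = S.card := by
  classical
  have e : coordS (k := k) S ≃ₗ[k] (S → k) :=
    { toFun := fun F i => F.1 i.1
      map_add' := fun _ _ => rfl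
      map_smul' := fun _ _ => rfl
      invFun := fun G => ⟨fun i => if h : i ∈ S then G ⟨i, h⟩ else 0, fun i hi => dif_neg hi⟩
      left_inv := by
        intro F
        apply Subtype.ext
        funext i
        by_cases h : i ∈ S
        · simp only [dif_pos h]
        · simp only [dif_neg h]
          exact (F.2 i h).symm
      right_inv := by
        intro G
        funext i
        simp only [dif_pos i.2] }
  rw [e.finrank_eq, Module.finrank_fintype_fun_eq_card]
  simp

theorem coord_of_stab [DecidableEq (Fin g)] (V : Submodule k (Fin g → k))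
    (hV : StabT (fun i : Fin g => (i : ℕ)) V) :
    ∃ S : Finset (Fin g), V = coordS S := by
  classical
  refine ⟨univ.filter fun i => (Pi.single i 1 : Fin g → k) ∈ V, ?_⟩
  have h1 : ∀ F : Fin g → k, F ∈ V → ∀ i, F i • (Pi.single i 1 : Fin g → k) ∈ V := by
    intro F hF i
    have h2 := hV F hF i
    have h3 : (fun w : Fin g => if (w : ℕ) = (i : ℕ) then F w else 0) =
        F i • (Pi.single i 1 : Fin g → k) := by
      funext w
      rw [Pi.smul_apply, Pi.single_apply, smul_eq_mul]
      by_cases h : w = i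
      · subst h
        simp
      · rw [if_neg h, if_neg fun h4 => h (Fin.ext h4), mul_zero]
    rw [← h3]
    exact h2
  ext F
  rw [mem_coordS]
  constructor
  · intro hF i hi
    by_contra hne
    apply hi
    rw [mem_filter]
    refine ⟨mem_univ _, ?_⟩
    have h2 := V.smul_mem (F i)⁻¹ (h1 F hF i)
    rwa [smul_smul, inv_mul_cancel₀ hne, one_smul] at h2
  · intro hF
    have h2 : F = ∑ i, F i • (Pi.single i 1 : Fin g → k) := by
      funext w
      rw [Finset.sum_apply]
      simp [Pi.single_apply]
    rw [h2]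
    refine V.sum_mem fun i _ => ?_
    by_cases hi : i ∈ univ.filter fun i => (Pi.single i 1 : Fin g → k) ∈ V
    · rw [mem_filter] at hi
      exact V.smul_mem _ hi.2
    · rw [hF i hi, zero_smul]
      exact V.zero_mem

theorem coordS_inj (S T : Finset (Fin g)) (h : coordS (k := k) S = coordS T) : S = T := by
  classical
  have h1 : ∀ (S : Finset (Fin g)) (i : Fin g),
      (Pi.single i 1 : Fin g → k) ∈ coordS (k := k) S ↔ i ∈ S := by
    intro S i
    rw [mem_coordS]
    constructor
    · intro h
      by_contra hi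
      have := h i hi
      simp at this
    · intro hi j hj
      rw [Pi.single_apply, if_neg]
      rintro rfl
      exact hj hi
  ext i
  rw [← h1 S i, ← h1 T i, h]

end Cnt

theorem cnt_main : S_Cnt := by
  classical
  intro k M _ _ _ _ _ ζ hζ hg c
  obtain ⟨g, hgd⟩ : ∃ g, g = Module.finrank k M := ⟨_, rfl⟩
  rw [← hgd] at hg ⊢
  have e : M ≃ₗ[k] (Fin g → k) := LinearEquiv.ofFinrankEq _ _ (by
    rw [Module.finrank_fin_fun, hgd])
  have h0 : Nat.card {V : Submodule k M // Module.finrank k V = c} =
      Nat.card {V : Submodule k (Fin g → k) // Module.finrank k V = c} := by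
    refine Nat.card_congr ((Submodule.orderIsoMapComap e).toEquiv.subtypeEquiv fun V => ?_)
    have h1 : Module.finrank k (V.map (e : M →ₗ[k] (Fin g → k))) = Module.finrank k V :=
      LinearEquiv.finrank_map_eq e V
    change _ ↔ Module.finrank k (V.map (e : M →ₗ[k] (Fin g → k))) = c
    rw [h1]
  rw [h0]
  have hwt : ∀ i : Fin g, (i : ℕ) < 5 ^ 6 := fun i => i.2.trans hg
  have ht : ∀ F : Fin g → k, (tor ζ (fun i : Fin g => (i : ℕ)))^[5 ^ 6] F = F :=
    tor_order ζ _ _ hζ.pow_eq_one
  have h1 := fix_count (tor ζ (fun i : Fin g => (i : ℕ))) 6 ht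
    (fun V => Module.finrank k V = c)
    (fun V hV => by
      change Module.finrank k (V.comap _) = c
      rw [finrank_comap_inj _ (inj_of_iter _ (5 ^ 6) (by norm_num) ht)]
      exact hV) c fun V hV => hV
  have h2 : Nat.card {V : Submodule k (Fin g → k) // Module.finrank k V = c ∧
      ∀ F ∈ V, tor ζ (fun i : Fin g => (i : ℕ)) F ∈ V} =
      Nat.card {S : Finset (Fin g) // S.card = c} := by
    symm
    refine Nat.card_congr (Equiv.ofBijective (fun S => ⟨coordS S.1, ?_, ?_⟩) ⟨?_, ?_⟩)
    · rw [finrank_coordS]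
      exact S.2
    · intro F hF i hi
      rw [tor_apply, hF i hi, mul_zero]
    · intro S T hST
      apply Subtype.ext
      exact coordS_inj (k := k) S.1 T.1 (congrArg Subtype.val hST)
    · rintro ⟨V, hV1, hV2⟩
      obtain ⟨S, hS⟩ := coord_of_stab V ((stabT_iff ζ _ hζ _ hwt V).2 hV2)
      refine ⟨⟨S, ?_⟩, ?_⟩
      · rw [← finrank_coordS (k := k) S, ← hS]
        exact hV1
      · apply Subtype.ext
        exact hS.symm
  have h3 : Nat.card {S : Finset (Fin g) // S.card = c} = g.choose c := by
    rw [Nat.card_eq_fintype_card, Fintype.card_finset_len, Fintype.card_fin]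
  rw [h2, h3] at h1
  exact h1

end Pool.Agent.W880.UF
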