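import Mathlib
import Pool.Agent.W373.Unif.Basic

set_option autoImplicit false
open Finset

/-!
# W373U-COMBA, part 1 : integrally defined families of subspaces
-/

namespace Pool.Agent.W880.UF
open Pool.Agent.W373.Unif

/-- conditions on functions defined by an integer linear system, uniformly in `p` -/
def ID {W : Type} [Fintype W] (Q : ∀ p : ℕ, (W → ZMod p) → Prop) : Prop :=
  ∃ (ι : Type) (_ : Fintype ι) (A : ι → W → ℤ), ∀ (p : ℕ) (F : W → ZMod p),
    Q p F ↔ ∀ i, ∑ w, ((A i w : ℤ) : ZMod p) * F w = 0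

section ID

variable {W : Type} [Fintype W]

theorem ID.tr : ID (fun (p : ℕ) (_ : W → ZMod p) => True) :=
  ⟨Empty, inferInstance, fun e => e.elim, fun p F => by simp⟩

theorem ID.and {Q Q' : ∀ p : ℕ, (W → ZMod p) → Prop} (h : ID Q) (h' : ID Q') :
    ID (fun p F => Q p F ∧ Q' p F) := by
  obtain ⟨ι, hι, A, hA⟩ := h
  obtain ⟨ι', hι', A', hA'⟩ := h'
  refine ⟨ι ⊕ ι', inferInstance, Sum.elim A A', fun p F => ?_⟩
  change (Q p F ∧ Q' p F) ↔ _
  rw [hA, hA']
  constructor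
  · rintro ⟨h1, h2⟩ (i | i)
    · exact h1 i
    · exact h2 i
  · intro h
    exact ⟨fun i => h (Sum.inl i), fun i => h (Sum.inr i)⟩

theorem ID.all {T : Type} [Fintype T] {Q : T → ∀ p : ℕ, (W → ZMod p) → Prop}
    (h : ∀ t, ID (Q t)) : ID (fun p F => ∀ t, Q t p F) := by
  choose ι hι A hA using h
  refine ⟨(t : T) × ι t, inferInstance, fun i => A i.1 i.2, fun p F => ?_⟩
  constructor
  · rintro h1 ⟨t, i⟩
    exact (hA t p F).1 (h1 t) i
  · intro h1 t
    exact (hA t p F).2 fun i => h1 ⟨t, i⟩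

theorem ID.lin (c : W → ℤ) : ID (fun (p : ℕ) (F : W → ZMod p) =>
    ∑ w, ((c w : ℤ) : ZMod p) * F w = 0) :=
  ⟨Unit, inferInstance, fun _ => c, fun p F => by simp⟩

theorem ID.congr {Q Q' : ∀ p : ℕ, (W → ZMod p) → Prop} (h : ID Q)
    (hQ : ∀ p F, Q' p F ↔ Q p F) : ID Q' := by
  obtain ⟨ι, hι, A, hA⟩ := h
  exact ⟨ι, hι, A, fun p F => (hQ p F).trans (hA p F)⟩

theorem ID.pre {Y : Type} [Fintype Y] [DecidableEq Y] {Q : ∀ p : ℕ, (W → ZMod p) → Prop}
    (h : ID Q) (x : Y) : ID (W := Y × W) (fun p F => Q p (fun w => F (x, w))) := by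
  obtain ⟨ι, hι, A, hA⟩ := h
  refine ⟨ι, hι, fun i w => if w.1 = x then A i w.2 else 0, fun p F => ?_⟩
  change Q p (fun w => F (x, w)) ↔ _
  rw [hA]
  refine forall_congr' fun i => ?_
  have h1 : ∑ w : Y × W, (((if w.1 = x then A i w.2 else 0 : ℤ)) : ZMod p) * F w =
      ∑ w, ((A i w : ℤ) : ZMod p) * F (x, w) := by
    rw [Fintype.sum_prod_type]
    rw [Finset.sum_eq_single x]
    · simp
    · intro y _ hy
      simp [hy]
    · intro h
      exact absurd (mem_univ x) h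
  rw [h1]

theorem ID.van (P : W → Prop) : ID (fun (p : ℕ) (F : W → ZMod p) => ∀ w, P w → F w = 0) := by
  classical
  refine ID.all (Q := fun (w : W) (p : ℕ) (F : W → ZMod p) => P w → F w = 0) fun w => ?_
  by_cases h : P w
  · refine (ID.lin (Pi.single w 1)).congr fun p F => ?_
    have h1 : ∑ w', (((Pi.single w 1 : W → ℤ) w' : ℤ) : ZMod p) * F w' = F w := by
      simp [Pi.single_apply]
    rw [h1]
    exact ⟨fun h2 => h2 h, fun h2 _ => h2⟩
  · refine ID.tr.congr fun p F => ?_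
    exact ⟨fun _ => trivial, fun _ h2 => absurd h2 h⟩

theorem ID.ec (hEC : S_EC) {Q : ∀ p : ℕ, (W → ZMod p) → Prop} (h : ID Q)
    (V : ∀ p : ℕ, Submodule (ZMod p) (W → ZMod p)) (hV : ∀ p F, F ∈ V p ↔ Q p F) :
    ∃ N g : ℕ, ∀ (p : ℕ) [Fact p.Prime], N < p → Module.finrank (ZMod p) (V p) = g := by
  obtain ⟨ι, hι, A, hA⟩ := h
  obtain ⟨N, g, hg⟩ := hEC ι W A
  refine ⟨N, g, fun p _ hp => ?_⟩
  have h1 : V p = solZ A (ZMod p) := by
    ext F
    rw [hV, hA]
    rfl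
  rw [h1]
  exact hg p hp

theorem ID.supp (hEC : S_EC) {Q : ∀ p : ℕ, (W → ZMod p) → Prop} (h : ID Q)
    (V : ∀ p : ℕ, Submodule (ZMod p) (W → ZMod p)) (hV : ∀ p F, F ∈ V p ↔ Q p F)
    (wt : W → ℕ) (w : W) :
    ∃ (N : ℕ) (b : Prop), ∀ (p : ℕ) [Fact p.Prime], N < p →
      (w ∈ Pool.Agent.W373.Unif.supp wt (V p) ↔ b) := by
  obtain ⟨N, g, hg⟩ := ID.ec hEC h V hV
  have h' := h.and (ID.van fun w' => wt w' = wt w)
  let V' : ∀ p : ℕ, Submodule (ZMod p) (W → ZMod p) := fun p =>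
    { carrier := {F | F ∈ V p ∧ ∀ w', wt w' = wt w → F w' = 0}
      add_mem' := fun hF hG => ⟨(V p).add_mem hF.1 hG.1, fun w' hw => by
        rw [Pi.add_apply, hF.2 w' hw, hG.2 w' hw, add_zero]⟩
      zero_mem' := ⟨(V p).zero_mem, fun _ _ => rfl⟩
      smul_mem' := fun t _ hF => ⟨(V p).smul_mem t hF.1, fun w' hw => by
        rw [Pi.smul_apply, hF.2 w' hw, smul_zero]⟩ }
  have hV' : ∀ p F, F ∈ V' p ↔ (Q p F ∧ ∀ w', wt w' = wt w → F w' = 0) := by
    intro p F
    rw [← hV]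
    rfl
  obtain ⟨N', g', hg'⟩ := ID.ec hEC h' V' hV'
  refine ⟨max N N', g' ≠ g, fun p _ hp => ?_⟩
  have h1 := hg p (lt_of_le_of_lt (le_max_left _ _) hp)
  have h2 := hg' p (lt_of_le_of_lt (le_max_right _ _) hp)
  have hle : V' p ≤ V p := fun F hF => hF.1
  constructor
  · rintro ⟨F, hF, w', hw', hFw⟩ heq
    have h3 : V' p = V p := Submodule.eq_of_le_of_finrank_eq hle (by rw [h1, h2, heq])
    rw [← h3] at hF
    exact hFw (hF.2 w' hw')
  · intro hne
    by_contra hcon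
    apply hne
    have h3 : V' p = V p := by
      apply le_antisymm hle
      intro F hF
      refine ⟨hF, fun w' hw' => ?_⟩
      by_contra hFw
      exact hcon ⟨F, hF, w', hw', hFw⟩
    rw [← h1, ← h2, h3]

end ID

/-! ## the spaces -/

/-- the spaces attached to a set of words of length two -/
def E2 (A : Finset W2) (p : ℕ) : Submodule (ZMod p) (W2 → ZMod p) where
  carrier := {F | F ∈ C2 (ZMod p) ∧ ∀ w, w ∉ A → F w = 0}
  add_mem' := fun hF hG => ⟨(C2 _).add_mem hF.1 hG.1, fun w' hw => by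
    rw [Pi.add_apply, hF.2 w' hw, hG.2 w' hw, add_zero]⟩
  zero_mem' := ⟨(C2 _).zero_mem, fun _ _ => rfl⟩
  smul_mem' := fun t _ hF => ⟨(C2 _).smul_mem t hF.1, fun w' hw => by
    rw [Pi.smul_apply, hF.2 w' hw, smul_zero]⟩

/-- the spaces attached to a pair of sets of words -/
def E3 (A : Finset W2 × Finset W3) (p : ℕ) : Submodule (ZMod p) (W3 → ZMod p) where
  carrier := {F | F ∈ D3 (E2 A.1 p) ∧ ∀ w, w ∉ A.2 → F w = 0}
  add_mem' := fun hF hG => ⟨(D3 _).add_mem hF.1 hG.1, fun w' hw => by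
    rw [Pi.add_apply, hF.2 w' hw, hG.2 w' hw, add_zero]⟩
  zero_mem' := ⟨(D3 _).zero_mem, fun _ _ => rfl⟩
  smul_mem' := fun t _ hF => ⟨(D3 _).smul_mem t hF.1, fun w' hw => by
    rw [Pi.smul_apply, hF.2 w' hw, smul_zero]⟩

theorem lin_sum {W : Type} [Fintype W] [DecidableEq W] (p : ℕ) (F : W → ZMod p) (w : W) :
    ∑ w', (((Pi.single w 1 : W → ℤ) w' : ℤ) : ZMod p) * F w' = F w := by
  simp [Pi.single_apply]

theorem ID_C2 : ID (fun p F => F ∈ C2 (ZMod p)) := by
  refine (ID.all (T := X) fun a => ID.all (T := X) fun b =>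
    ID.lin (Pi.single (a, b) 1 + Pi.single (b, a) 1 : W2 → ℤ)).congr fun p F => ?_
  refine forall_congr' fun a => forall_congr' fun b => ?_
  have h1 : ∑ w, ((((Pi.single (a, b) 1 + Pi.single (b, a) 1 : W2 → ℤ)) w : ℤ) : ZMod p) * F w =
      F (a, b) + F (b, a) := by
    simp only [Pi.add_apply, Int.cast_add, add_mul, sum_add_distrib, lin_sum]
  rw [h1]

theorem ID_E2 (A : Finset W2) : ID (fun p F => F ∈ E2 A p) :=
  (ID_C2.and (ID.van fun w => w ∉ A)).congr fun _ _ => Iff.rfl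

theorem ID_C3 : ID (fun p F => F ∈ C3 (ZMod p)) := by
  refine ((ID.all (T := X) fun a => ID.all (T := X) fun b => ID.all (T := X) fun c =>
    ID.lin (Pi.single (a, b, c) 1 + Pi.single (a, c, b) 1 : W3 → ℤ)).and
    (ID.all (T := X) fun a => ID.all (T := X) fun b => ID.all (T := X) fun c =>
    ID.lin (Pi.single (a, b, c) 1 + Pi.single (b, c, a) 1 + Pi.single (c, a, b) 1 :
      W3 → ℤ))).congr fun p F => ?_
  refine and_congr ?_ ?_
  · refine forall_congr' fun a => forall_congr' fun b => forall_congr' fun c => ?_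
    simp only [Pi.add_apply, Int.cast_add, add_mul, sum_add_distrib, lin_sum]
  · refine forall_congr' fun a => forall_congr' fun b => forall_congr' fun c => ?_
    simp only [Pi.add_apply, Int.cast_add, add_mul, sum_add_distrib, lin_sum]

theorem ID_E3 (A : Finset W2 × Finset W3) : ID (fun p F => F ∈ E3 A p) := by
  refine ((ID_C3.and (ID.all (T := X) fun x => (ID_E2 A.1).pre x)).and
    (ID.van fun w => w ∉ A.2)).congr fun _ _ => Iff.rfl

theorem ID_C4 : ID (fun p F => F ∈ C4 (ZMod p)) := by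
  refine ((ID.all (T := X) fun x => ID_C3.pre x).and
    (ID.all (T := X) fun a => ID.all (T := X) fun b => ID.all (T := X) fun c =>
    ID.all (T := X) fun d => ID.lin (Pi.single (a, b, c, d) 1 - Pi.single (b, a, c, d) 1 +
      Pi.single (c, d, a, b) 1 - Pi.single (d, c, a, b) 1 : W4 → ℤ))).congr fun p F => ?_
  refine and_congr Iff.rfl ?_
  refine forall_congr' fun a => forall_congr' fun b => forall_congr' fun c =>
    forall_congr' fun d => ?_
  simp only [Pi.add_apply, Pi.sub_apply, Int.cast_add, Int.cast_sub, add_mul, sub_mul,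
    sum_add_distrib, sum_sub_distrib, lin_sum]

theorem ID_E4 (A : Finset W2 × Finset W3) : ID (fun p F => F ∈ D4 (E3 A p)) :=
  (ID_C4.and (ID.all (T := X) fun x => (ID_E3 A).pre x)).congr fun _ _ => Iff.rfl

end Pool.Agent.W880.UF
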