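import Mathlib
import Pool.Agent.W373.Unif.Basic
import Pool.Agent.W880.UF.CombA0

set_option autoImplicit false
open Finset

/-!
# W373U-COMBA : the number of full configurations is eventually constant modulo 5
-/

namespace Pool.Agent.W880.UF
open Pool.Agent.W373.Unif

/-- the good pairs -/
def Good (A : Finset W2 × Finset W3) (p : ℕ) : Prop :=
  ((∀ w, w ∈ A.1 ↔ rot2 w ∈ A.1) ∧ (∀ w, w ∈ A.2 ↔ rot3 w ∈ A.2)) ∧
  (∀ w, w ∈ Pool.Agent.W373.Unif.supp wt2 (E2 A.1 p) ↔ w ∈ A.1) ∧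
  (∀ w, w ∈ Pool.Agent.W373.Unif.supp wt3 (E3 A p) ↔ w ∈ A.2)

/-- eventually constant propositions -/
def EvP (P : ℕ → Prop) : Prop :=
  ∃ (N : ℕ) (b : Prop), ∀ (p : ℕ) [Fact p.Prime], N < p → (P p ↔ b)

theorem EvP.all {T : Type} [Fintype T] {P : T → ℕ → Prop} (h : ∀ t, EvP (P t)) :
    EvP (fun p => ∀ t, P t p) := by
  choose N b hb using h
  refine ⟨univ.sup N, ∀ t, b t, fun p _ hp => ?_⟩
  exact forall_congr' fun t => hb t p (lt_of_le_of_lt (le_sup (mem_univ t)) hp)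

theorem EvP.and {P Q : ℕ → Prop} (h : EvP P) (h' : EvP Q) : EvP (fun p => P p ∧ Q p) := by
  obtain ⟨N, b, hb⟩ := h
  obtain ⟨N', b', hb'⟩ := h'
  refine ⟨max N N', b ∧ b', fun p _ hp => ?_⟩
  exact and_congr (hb p (lt_of_le_of_lt (le_max_left _ _) hp))
    (hb' p (lt_of_le_of_lt (le_max_right _ _) hp))

theorem EvP.const (b : Prop) : EvP (fun _ => b) := ⟨0, b, fun _ _ _ => Iff.rfl⟩

theorem EvP.iffc {P : ℕ → Prop} (h : EvP P) (c : Prop) : EvP (fun p => P p ↔ c) := by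
  obtain ⟨N, b, hb⟩ := h
  exact ⟨N, b ↔ c, fun p _ hp => iff_congr (hb p hp) Iff.rfl⟩

theorem good_ev (hEC : S_EC) (A : Finset W2 × Finset W3) : EvP (Good A) := by
  refine (EvP.const _).and ((EvP.all fun w => ?_).and (EvP.all fun w => ?_))
  · obtain ⟨N, b, hb⟩ := ID.supp hEC (ID_E2 A.1) (fun p => E2 A.1 p) (fun _ _ => Iff.rfl) wt2 w
    exact EvP.iffc ⟨N, b, hb⟩ _
  · obtain ⟨N, b, hb⟩ := ID.supp hEC (ID_E3 A) (fun p => E3 A p) (fun _ _ => Iff.rfl) wt3 w
    exact EvP.iffc ⟨N, b, hb⟩ _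

section P

set_option linter.unusedSectionVars false

variable (p : ℕ) [Fact p.Prime]

theorem E2_le (A : Finset W2) : E2 A p ≤ C2 (ZMod p) := fun _ hF => hF.1

theorem E2_T (A : Finset W2) : StabT wt2 (E2 A p) := by
  intro F hF j
  refine ⟨stabT_C2 (ZMod p) F hF.1 j, fun w hw => ?_⟩
  simp only [hF.2 w hw, ite_self]

theorem E2_R (A : Finset W2) (hA : ∀ w, w ∈ A ↔ rot2 w ∈ A) : StabR rot2 (E2 A p) := by
  intro F hF
  refine ⟨stabR_C2 (ZMod p) F hF.1, fun w hw => ?_⟩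
  exact hF.2 _ fun h => hw ((hA w).2 h)

theorem E3_T (A : Finset W2 × Finset W3) : StabT wt3 (E3 A p) := by
  intro F hF j
  refine ⟨stabT_D3 (E2_T p A.1) F hF.1 j, fun w hw => ?_⟩
  simp only [hF.2 w hw, ite_self]

theorem E3_R (A : Finset W2 × Finset W3) (hA : ∀ w, w ∈ A.1 ↔ rot2 w ∈ A.1)
    (hA' : ∀ w, w ∈ A.2 ↔ rot3 w ∈ A.2) : StabR rot3 (E3 A p) := by
  intro F hF
  refine ⟨stabR_D3 (E2_R p A.1 hA) F hF.1, fun w hw => ?_⟩
  exact hF.2 _ fun h => hw ((hA' w).2 h)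

theorem good_pair (A : Finset W2 × Finset W3) (h : Good A p) :
    IsPair (E2 A.1 p) (E3 A p) ∧ Full (E2 A.1 p) (E3 A p) := by
  obtain ⟨⟨h1, h2⟩, h3, h4⟩ := h
  refine ⟨⟨E2_le p A.1, E2_T p A.1, E2_R p A.1 h1, fun F hF => hF.1, E3_T p A,
    E3_R p A h1 h2⟩, ?_⟩
  intro F hF hFs
  exact ⟨hF, fun w hw => hFs w fun h => hw ((h4 w).1 h)⟩

theorem E2_eq (hp : 5 < p) (V2 : Submodule (ZMod p) (W2 → ZMod p)) (hle : V2 ≤ C2 (ZMod p))
    (hT : StabT wt2 V2) (A : Finset W2)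
    (hA : ∀ w, w ∈ A ↔ w ∈ Pool.Agent.W373.Unif.supp wt2 V2) : E2 A p = V2 := by
  apply le_antisymm
  · intro F hF
    refine mem_of_masks wt2 wt2_lt V2 F fun j => ?_
    by_cases hj : ∃ w, wt2 w = j ∧ F w ≠ 0
    · obtain ⟨⟨a, b⟩, rfl, hFw⟩ := hj
      have h1 : (a, b) ∈ A := by
        by_contra hcon
        exact hFw (hF.2 _ hcon)
      obtain ⟨G, hG, ⟨a', b'⟩, hw', hGw⟩ := (hA _).1 h1
      have hGC := hle hG
      have hFC := hF.1
      have hGab : G (a, b) ≠ 0 := by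
        rcases wt2_perm a b a' b' hw' with h2 | h2
        · rw [h2] at hGw
          exact hGw
        · rw [h2] at hGw
          intro h3
          have h4 := hGC a b
          rw [h3, zero_add] at h4
          exact hGw h4
      have h2 := V2.smul_mem (F (a, b) / G (a, b)) (hT G hG (wt2 (a, b)))
      have h3 : mask wt2 (wt2 (a, b)) F = (F (a, b) / G (a, b)) •
          fun w => if wt2 w = wt2 (a, b) then G w else 0 := by
        funext w
        obtain ⟨c, d⟩ := w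
        simp only [mask, Pi.smul_apply, smul_eq_mul]
        split_ifs with h4
        · rcases wt2_perm a b c d h4 with h5 | h5
          · rw [h5]
            field_simp
          · rw [h5]
            have h6 := hGC a b
            have h7 := hFC a b
            have h8 : G (b, a) = - G (a, b) := by linear_combination h6
            have h9 : F (b, a) = - F (a, b) := by linear_combination h7
            rw [h8, h9]
            field_simp
        · rw [mul_zero]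
      rw [h3]
      exact h2
    · have h1 : mask wt2 j F = 0 := by
        funext w
        simp only [mask, Pi.zero_apply]
        split_ifs with h2
        · by_contra h3
          exact hj ⟨w, h2, h3⟩
        · rfl
      rw [h1]
      exact V2.zero_mem
  · intro F hF
    refine ⟨hle hF, fun w hw => ?_⟩
    by_contra h1
    exact hw ((hA w).2 ⟨F, hF, w, rfl, h1⟩)

theorem E3_eq (V2 : Submodule (ZMod p) (W2 → ZMod p)) (V3 : Submodule (ZMod p) (W3 → ZMod p))
    (hle : V3 ≤ D3 V2) (hF : Full V2 V3) (A : Finset W2 × Finset W3) (hA1 : E2 A.1 p = V2)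
    (hA : ∀ w, w ∈ A.2 ↔ w ∈ Pool.Agent.W373.Unif.supp wt3 V3) : E3 A p = V3 := by
  apply le_antisymm
  · intro F hF'
    refine hF F ?_ ?_
    · rw [← hA1]
      exact hF'.1
    · intro w hw
      exact hF'.2 w fun h => hw ((hA w).1 h)
  · intro F hF'
    refine ⟨?_, fun w hw => ?_⟩
    · rw [hA1]
      exact hle hF'
    · by_contra h1
      exact hw ((hA w).2 ⟨F, hF', w, rfl, h1⟩)

theorem supp_rot {W : Type} (wt : W → ℕ) (r : W → W) (hr : r^[5] = id)
    (hwr : ∀ w w', wt w = wt w' ↔ wt (r w) = wt (r w'))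
    (V : Submodule (ZMod p) (W → ZMod p)) (hR : StabR r V) (w : W) :
    w ∈ Pool.Agent.W373.Unif.supp wt V ↔ r w ∈ Pool.Agent.W373.Unif.supp wt V := by
  have h5 : ∀ u, r (r^[4] u) = u := by
    intro u
    rw [← Function.iterate_succ_apply' r 4 u, hr]
    rfl
  have h5' : ∀ u, r^[4] (r u) = u := by
    intro u
    rw [← Function.iterate_succ_apply r 4 u, hr]
    rfl
  constructor
  · rintro ⟨F, hF, w', hw', hFw⟩
    refine ⟨_, hR.iter hF 4, r w', (hwr _ _).1 hw', ?_⟩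
    rw [h5']
    exact hFw
  · rintro ⟨F, hF, w', hw', hFw⟩
    refine ⟨_, hR F hF, r^[4] w', ?_, ?_⟩
    · rw [hwr, h5]
      exact hw'
    · rw [h5]
      exact hFw

theorem cfg_card (hp : 5 < p) (s : ℕ) :
    Nat.card {V : Submodule (ZMod p) (W2 → ZMod p) × Submodule (ZMod p) (W3 → ZMod p) ×
      Submodule (ZMod p) (W4 → ZMod p) // IsCfg s V.1 V.2.1 V.2.2 ∧ Full V.1 V.2.1} =
    ∑ A : Finset W2 × Finset W3, Nat.card {V4 : Submodule (ZMod p) (W4 → ZMod p) //
      Good A p ∧ IsCfg s (E2 A.1 p) (E3 A p) V4} := by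
  classical
  have hfin : Finite (Submodule (ZMod p) (W4 → ZMod p)) :=
    Finite.of_injective (fun V : Submodule (ZMod p) (W4 → ZMod p) => (V : Set (W4 → ZMod p)))
      SetLike.coe_injective
  rw [← Nat.card_sigma]
  symm
  refine Nat.card_congr (Equiv.ofBijective (fun V => ⟨(E2 V.1.1 p, E3 V.1 p, V.2.1), V.2.2.2,
    (good_pair p V.1 V.2.2.1).2⟩) ⟨?_, ?_⟩)
  · rintro ⟨A, V4, hG, hC⟩ ⟨A', V4', hG', hC'⟩ h
    have h1 : E2 A.1 p = E2 A'.1 p := congrArg (fun V => V.1.1) h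
    have h2 : E3 A p = E3 A' p := congrArg (fun V => V.1.2.1) h
    have h3 : V4 = V4' := congrArg (fun V => V.1.2.2) h
    have h4 : A = A' := by
      apply Prod.ext
      · ext w
        rw [← hG.2.1 w, ← hG'.2.1 w, h1]
      · ext w
        rw [← hG.2.2 w, ← hG'.2.2 w, h2]
    subst h4
    subst h3
    rfl
  · rintro ⟨⟨V2, V3, V4⟩, hC, hF⟩
    change IsCfg s V2 V3 V4 at hC
    change Full V2 V3 at hF
    have hfs2 : (Pool.Agent.W373.Unif.supp wt2 V2).Finite := Set.toFinite _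
    have hfs3 : (Pool.Agent.W373.Unif.supp wt3 V3).Finite := Set.toFinite _
    obtain ⟨A, hA⟩ : ∃ A : Finset W2 × Finset W3, A = (hfs2.toFinset, hfs3.toFinset) :=
      ⟨_, rfl⟩
    have hA1 : ∀ w, w ∈ A.1 ↔ w ∈ Pool.Agent.W373.Unif.supp wt2 V2 := by
      intro w
      rw [hA]
      exact Set.Finite.mem_toFinset _
    have hA2 : ∀ w, w ∈ A.2 ↔ w ∈ Pool.Agent.W373.Unif.supp wt3 V3 := by
      intro w
      rw [hA]
      exact Set.Finite.mem_toFinset _
    have e2 := E2_eq p hp V2 hC.pair.le2 hC.pair.t2 A.1 hA1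
    have e3 := E3_eq p V2 V3 hC.pair.le3 hF A e2 hA2
    have hG : Good A p := by
      refine ⟨⟨fun w => ?_, fun w => ?_⟩, fun w => ?_, fun w => ?_⟩
      · rw [hA1, hA1]
        exact supp_rot p wt2 rot2 rot2_five wt2_iff V2 hC.pair.r2 w
      · rw [hA2, hA2]
        exact supp_rot p wt3 rot3 rot3_five wt3_iff V3 hC.pair.r3 w
      · rw [e2, hA1]
      · rw [e3, hA2]
    refine ⟨⟨A, V4, hG, ?_⟩, ?_⟩
    · rw [e2, e3]
      exact hC
    · apply Subtype.ext
      change (E2 A.1 p, E3 A p, V4) = (V2, V3, V4)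
      rw [e2, e3]

theorem piece_card (hCnt : S_Cnt) (hStab : S_Stab) (hp6 : p % 5 ^ 6 = 1) (s : ℕ)
    (A : Finset W2 × Finset W3) (d2 d3 d4 : ℕ) (hG : Good A p)
    (h2 : Module.finrank (ZMod p) (E2 A.1 p) = d2) (h3 : Module.finrank (ZMod p) (E3 A p) = d3)
    (h4 : Module.finrank (ZMod p) (D4 (E3 A p)) = d4) :
    Nat.card {V4 : Submodule (ZMod p) (W4 → ZMod p) //
      Good A p ∧ IsCfg s (E2 A.1 p) (E3 A p) V4} ≡
    (if d2 + d3 < 5 * s then d4.choose (5 * s - (d2 + d3)) else 0) [MOD 5] := by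
  obtain ⟨hP, hF⟩ := good_pair p A hG
  split_ifs with hs
  · have e1 : Nat.card {V4 : Submodule (ZMod p) (W4 → ZMod p) //
        Good A p ∧ IsCfg s (E2 A.1 p) (E3 A p) V4} =
        Nat.card {V4 : Submodule (ZMod p) (W4 → ZMod p) // V4 ≤ D4 (E3 A p) ∧ StabT wt4 V4 ∧
          StabR rot4 V4 ∧ Module.finrank (ZMod p) V4 = 5 * s - (d2 + d3)} := by
      refine Nat.card_congr (Equiv.subtypeEquivRight fun V4 => ?_)
      constructor
      · rintro ⟨_, hC⟩
        refine ⟨hC.le4, hC.t4, hC.r4, ?_⟩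
        have := hC.dim
        rw [h2, h3] at this
        omega
      · rintro ⟨h5, h6, h7, h8⟩
        refine ⟨hG, ⟨hP, h5, h6, h7, ?_, ?_⟩⟩
        · rintro rfl
          rw [finrank_bot] at h8
          omega
        · rw [h2, h3, h8]
          omega
    rw [e1]
    have hp5 : 5 ^ 6 ∣ p - 1 := by omega
    obtain ⟨ζ, hζ⟩ : ∃ ζ : ZMod p, IsPrimitiveRoot ζ (5 ^ 6) := by
      obtain ⟨d, hd⟩ := hp5
      have hp1 : 1 < p := (Fact.out : p.Prime).one_lt
      have hd0 : 0 < d := by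
        rcases Nat.eq_zero_or_pos d with h | h
        · rw [h, mul_zero] at hd
          omega
        · exact h
      obtain ⟨g, hg⟩ := IsCyclic.exists_ofOrder_eq_natCard (α := (ZMod p)ˣ)
      rw [Nat.card_eq_fintype_card, ZMod.card_units] at hg
      have hu : orderOf (g ^ d) = 5 ^ 6 := by
        rw [orderOf_pow' g hd0.ne', hg, hd, Nat.gcd_mul_left_left, Nat.mul_div_cancel _ hd0]
      refine ⟨((g ^ d : (ZMod p)ˣ) : ZMod p), ?_⟩
      rw [← hu]
      exact IsPrimitiveRoot.coe_units_iff.2 (IsPrimitiveRoot.orderOf (g ^ d))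
    have hCT : StabT wt4 (D4 (E3 A p)) := stabT_D4 hP.t3
    have hCR : StabR rot4 (D4 (E3 A p)) := stabR_D4 hP.r3
    have k1 := hStab (ZMod p) W4 ζ wt4 rot4 hζ wt4_lt wt4_iff rot4_five (D4 (E3 A p)) hCT hCR
      (5 * s - (d2 + d3))
    have k2 := hCnt (ZMod p) (D4 (E3 A p)) ζ hζ (by
      refine lt_of_le_of_lt (Submodule.finrank_le _) ?_
      rw [Module.finrank_fintype_fun_eq_card]
      have : Fintype.card W4 = 1296 := by
        simp [Fintype.card_prod]
      rw [this]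
      norm_num) (5 * s - (d2 + d3))
    rw [h4] at k2
    exact k1.trans k2
  · have e1 : Nat.card {V4 : Submodule (ZMod p) (W4 → ZMod p) //
        Good A p ∧ IsCfg s (E2 A.1 p) (E3 A p) V4} = 0 := by
      have : IsEmpty {V4 : Submodule (ZMod p) (W4 → ZMod p) //
          Good A p ∧ IsCfg s (E2 A.1 p) (E3 A p) V4} := by
        refine ⟨?_⟩
        rintro ⟨V4, _, hC⟩
        have h5 := hC.dim
        rw [h2, h3] at h5
        have h6 : Module.finrank (ZMod p) V4 = 0 := by omega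
        exact hC.ne (Submodule.finrank_eq_zero.1 h6)
      exact Nat.card_of_isEmpty
    rw [e1]

end P

theorem combA_main : S_EC → S_Cnt → S_Stab → S_CombA := by
  classical
  intro hEC hCnt hStab s
  have hA : ∀ A : Finset W2 × Finset W3, ∃ N c : ℕ, ∀ (p : ℕ) [Fact p.Prime], N < p →
      p % 5 ^ 6 = 1 → Nat.card {V4 : Submodule (ZMod p) (W4 → ZMod p) //
      Good A p ∧ IsCfg s (E2 A.1 p) (E3 A p) V4} ≡ c [MOD 5] := by
    intro A
    obtain ⟨N1, b, hb⟩ := good_ev hEC A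
    obtain ⟨N2, d2, h2⟩ := ID.ec hEC (ID_E2 A.1) (fun p => E2 A.1 p) fun _ _ => Iff.rfl
    obtain ⟨N3, d3, h3⟩ := ID.ec hEC (ID_E3 A) (fun p => E3 A p) fun _ _ => Iff.rfl
    obtain ⟨N4, d4, h4⟩ := ID.ec hEC (ID_E4 A) (fun p => D4 (E3 A p)) fun _ _ => Iff.rfl
    by_cases hbt : b
    · refine ⟨N1 + N2 + N3 + N4, (if d2 + d3 < 5 * s then d4.choose (5 * s - (d2 + d3)) else 0),
        fun p _ hp hp6 => ?_⟩
      exact piece_card p hCnt hStab hp6 s A d2 d3 d4 ((hb p (by omega)).2 hbt)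
        (h2 p (by omega)) (h3 p (by omega)) (h4 p (by omega))
    · refine ⟨N1, 0, fun p _ hp _ => ?_⟩
      have : IsEmpty {V4 : Submodule (ZMod p) (W4 → ZMod p) //
          Good A p ∧ IsCfg s (E2 A.1 p) (E3 A p) V4} := by
        refine ⟨?_⟩
        rintro ⟨V4, hG, _⟩
        exact hbt ((hb p hp).1 hG)
      rw [Nat.card_of_isEmpty]
  choose N c hc using hA
  obtain ⟨B, hB⟩ : ∃ B : ℕ, ∀ A, N A ≤ B := ⟨univ.sup N, fun A => le_sup (mem_univ A)⟩
  refine ⟨B + 5, ∑ A, c A, fun p _ hp hp6 => ?_⟩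
  have hp5 : 5 < p := by omega
  rw [cfg_card p hp5 s]
  have h1 : ∀ A ∈ (univ : Finset (Finset W2 × Finset W3)),
      Nat.card {V4 : Submodule (ZMod p) (W4 → ZMod p) //
      Good A p ∧ IsCfg s (E2 A.1 p) (E3 A p) V4} ≡ c A [MOD 5] := by
    intro A _
    have h2 := hB A
    have h3 : N A < p := by omega
    exact hc A p h3 hp6
  exact Nat.ModEq.sum h1

end Pool.Agent.W880.UF
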